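import Mathlib

set_option autoImplicit false

namespace Pool.Agent.H44.TILF

open Finset

/-- An elementary (Nielsen) move: add `k` times the `j`-th entry to the `i`-th entry. -/
def mv {A : Type*} [AddCommGroup A] {m : ℕ} (i j : Fin m) (k : ℤ) (a : Fin m → A) : Fin m → A :=
  Function.update a i (a i + k • a j)

/-- The generating `m`-tuples of an abelian group. -/
def gens (A : Type*) [AddCommGroup A] (m : ℕ) : Set (Fin m → A) :=
  {a | AddSubgroup.closure (Set.range a) = ⊤}

section moves

variable {A : Type*} [AddCommGroup A] {m : ℕ}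

lemma mv_mv_neg {i j : Fin m} (h : i ≠ j) (k : ℤ) (a : Fin m → A) :
    mv i j (-k) (mv i j k a) = a := by
  classical
  funext l
  by_cases hl : l = i
  · subst hl
    simp [mv, Function.update_of_ne (Ne.symm h)]
  · simp [mv, Function.update_of_ne hl]

lemma mv_neg_mv {i j : Fin m} (h : i ≠ j) (k : ℤ) (a : Fin m → A) :
    mv i j k (mv i j (-k) a) = a := by
  have := mv_mv_neg h (-k) a
  simpa using this

/-- The move as a permutation. -/
def mvEquiv {i j : Fin m} (h : i ≠ j) (k : ℤ) : (Fin m → A) ≃ (Fin m → A) where
  toFun := mv i j k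
  invFun := mv i j (-k)
  left_inv := mv_mv_neg h k
  right_inv := mv_neg_mv h k

lemma closure_mv_le (i j : Fin m) (k : ℤ) (a : Fin m → A) :
    AddSubgroup.closure (Set.range (mv i j k a)) ≤ AddSubgroup.closure (Set.range a) := by
  classical
  rw [AddSubgroup.closure_le]
  rintro _ ⟨l, rfl⟩
  by_cases hl : l = i
  · subst hl
    have : mv l j k a l = a l + k • a j := by simp [mv]
    rw [this]
    exact AddSubgroup.add_mem _ (AddSubgroup.subset_closure (Set.mem_range_self l))
      (AddSubgroup.zsmul_mem _ (AddSubgroup.subset_closure (Set.mem_range_self j)) k)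
  · have : mv i j k a l = a l := by simp [mv, Function.update_of_ne hl]
    rw [this]
    exact AddSubgroup.subset_closure (Set.mem_range_self l)

lemma mem_gens_mv {i j : Fin m} (h : i ≠ j) (k : ℤ) (a : Fin m → A) :
    mv i j k a ∈ gens A m ↔ a ∈ gens A m := by
  constructor
  · intro ha
    have h1 := closure_mv_le i j k a
    simp only [gens, Set.mem_ofPred_eq] at ha ⊢
    rw [ha] at h1
    exact top_le_iff.mp h1
  · intro ha
    have h1 := closure_mv_le i j (-k) (mv i j k a)
    rw [mv_mv_neg h] at h1
    simp only [gens, Set.mem_ofPred_eq] at ha ⊢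
    rw [ha] at h1
    exact top_le_iff.mp h1

lemma map_mv {B : Type*} [AddCommGroup B] (f : A →+ B) (i j : Fin m) (k : ℤ) (a : Fin m → A) :
    (fun l => f (mv i j k a l)) = mv i j k (fun l => f (a l)) := by
  classical
  funext l
  by_cases hl : l = i
  · subst hl
    simp [mv]
  · simp [mv, Function.update_of_ne hl]

lemma mem_gens_map {B : Type*} [AddCommGroup B] (f : A →+ B) (hf : Function.Surjective f)
    {a : Fin m → A} (ha : a ∈ gens A m) : (fun l => f (a l)) ∈ gens B m := by
  simp only [gens, Set.mem_ofPred_eq] at ha ⊢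
  have h1 : Set.range (fun l => f (a l)) = f '' Set.range a := by
    rw [← Set.range_comp]; rfl
  rw [h1, ← AddMonoidHom.map_closure, ha]
  rw [← AddMonoidHom.range_eq_map]
  exact AddMonoidHom.range_eq_top.mpr hf

end moves

section trans

/-- The tuple `(1, 0, ..., 0)`. -/
def e0 (n m : ℕ) : Fin m → ZMod n := fun i => if i.val = 0 then 1 else 0

lemma gens_span {n m : ℕ} [NeZero n] {v : Fin m → ZMod n} (hv : v ∈ gens (ZMod n) m)
    (i : Fin m) (hi : ∀ j, j ≠ i → v j = 0) : ∃ k : ℤ, k • v i = 1 := by
  have h1 : AddSubgroup.closure (Set.range v) ≤ AddSubgroup.zmultiples (v i) := by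
    rw [AddSubgroup.closure_le]
    rintro _ ⟨l, rfl⟩
    by_cases hl : l = i
    · subst hl; exact AddSubgroup.mem_zmultiples _
    · rw [hi l hl]; exact AddSubgroup.zero_mem _
  have h2 : (1 : ZMod n) ∈ AddSubgroup.zmultiples (v i) := by
    apply h1
    simp only [gens, Set.mem_ofPred_eq] at hv
    rw [hv]; trivial
  obtain ⟨k, hk⟩ := AddSubgroup.mem_zmultiples_iff.mp h2
  exact ⟨k, hk⟩

theorem trans_e0 {n m : ℕ} [NeZero n] (hm : 2 ≤ m) {β : Type*} (N : (Fin m → ZMod n) → β)
    (hN : ∀ (i j : Fin m) (_ : i ≠ j) (k : ℤ) (v : Fin m → ZMod n), N (mv i j k v) = N v) :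
    ∀ (s : ℕ) (v : Fin m → ZMod n), v ∈ gens (ZMod n) m → ∑ i, (v i).val = s →
      N v = N (e0 n m) := by
  classical
  intro s
  induction s using Nat.strong_induction_on with
  | _ s ih =>
  intro v hv hs
  by_cases hc : ∃ i j : Fin m, i ≠ j ∧ 0 < (v j).val ∧ (v j).val ≤ (v i).val
  · obtain ⟨i, j, hij, hj, hji⟩ := hc
    have h1 : N (mv i j (-1) v) = N v := hN i j hij (-1) v
    rw [← h1]
    have hvi : mv i j (-1) v i = v i - v j := by
      simp [mv, sub_eq_add_neg]
    have hlt : ∑ l, (mv i j (-1) v l).val < s := by
      rw [← hs]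
      apply Finset.sum_lt_sum
      · intro l _
        by_cases hl : l = i
        · subst hl
          rw [hvi, ZMod.val_sub hji]
          omega
        · simp [mv, Function.update_of_ne hl]
      · refine ⟨i, Finset.mem_univ _, ?_⟩
        rw [hvi, ZMod.val_sub hji]
        omega
    exact ih _ hlt _ ((mem_gens_mv hij (-1) v).mpr hv) rfl
  · push Not at hc
    have hone : ∃ i : Fin m, ∀ j, j ≠ i → v j = 0 := by
      by_cases hz : ∃ i : Fin m, v i ≠ 0
      · obtain ⟨i, hi⟩ := hz
        refine ⟨i, fun j hj => ?_⟩
        by_contra hjn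
        have hi' : 0 < (v i).val := by
          rw [Nat.pos_iff_ne_zero]
          intro h0
          exact hi ((ZMod.val_eq_zero _).mp h0)
        have hj' : 0 < (v j).val := by
          rw [Nat.pos_iff_ne_zero]
          intro h0
          exact hjn ((ZMod.val_eq_zero _).mp h0)
        have h1 := hc i j (Ne.symm hj) hj'
        have h2 := hc j i hj hi'
        omega
      · push Not at hz
        exact ⟨⟨0, by omega⟩, fun j _ => hz j⟩
    obtain ⟨i, hi⟩ := hone
    obtain ⟨k, hk⟩ := gens_span hv i hi
    obtain ⟨c, hc'⟩ : ∃ c : ℤ, (c : ZMod n) = v i := ⟨(v i).cast, by simp⟩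
    by_cases hi0 : i.val = 0
    · -- the nonzero entry is at `0`
      let i1 : Fin m := ⟨1, by omega⟩
      have hne : i1 ≠ i := by
        intro h
        have := congrArg Fin.val h
        simp only [i1] at this
        omega
      have hv1 : v i1 = 0 := hi i1 hne
      rw [← hN i1 i hne k v]
      rw [← hN i i1 hne.symm (1 - c) (mv i1 i k v)]
      rw [← hN i1 i hne (-1) (mv i i1 (1 - c) (mv i1 i k v))]
      congr 1
      have A1 : mv i1 i k v i1 = 1 := by simp [mv, hv1, ← hk]
      have A2 : mv i1 i k v i = v i := by simp [mv, Function.update_of_ne hne.symm]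
      have B1 : mv i i1 (1 - c) (mv i1 i k v) i = 1 := by
        have : mv i i1 (1 - c) (mv i1 i k v) i = mv i1 i k v i + (1 - c) • mv i1 i k v i1 := by
          simp [mv]
        rw [this, A1, A2]
        simp [hc']
      have B2 : mv i i1 (1 - c) (mv i1 i k v) i1 = 1 := by
        have : mv i i1 (1 - c) (mv i1 i k v) i1 = mv i1 i k v i1 := by
          simp [mv, Function.update_of_ne hne]
        rw [this, A1]
      funext l
      by_cases hl1 : l = i1
      · rw [hl1]
        have : mv i1 i (-1) (mv i i1 (1 - c) (mv i1 i k v)) i1 =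
            mv i i1 (1 - c) (mv i1 i k v) i1 + (-1 : ℤ) • mv i i1 (1 - c) (mv i1 i k v) i := by
          simp [mv]
        rw [this, B1, B2]
        simp [e0, i1]
      · by_cases hl0 : l = i
        · rw [hl0]
          have : mv i1 i (-1) (mv i i1 (1 - c) (mv i1 i k v)) i =
              mv i i1 (1 - c) (mv i1 i k v) i := by
            simp [mv, Function.update_of_ne hne.symm]
          rw [this, B1]
          simp [e0, hi0]
        · have h3 : mv i1 i (-1) (mv i i1 (1 - c) (mv i1 i k v)) l = v l := by
            simp [mv, Function.update_of_ne hl1, Function.update_of_ne hl0]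
          rw [h3, hi l hl0]
          have : l.val ≠ 0 := by
            intro h
            apply hl0
            exact Fin.ext (by omega)
          simp [e0, this]
    · let i0 : Fin m := ⟨0, by omega⟩
      have hne : i0 ≠ i := by
        intro h
        have := congrArg Fin.val h
        simp only [i0] at this
        omega
      have hv0 : v i0 = 0 := hi i0 hne
      rw [← hN i0 i hne k v]
      rw [← hN i i0 hne.symm (-c) (mv i0 i k v)]
      congr 1
      have A1 : mv i0 i k v i0 = 1 := by simp [mv, hv0, ← hk]
      have A2 : mv i0 i k v i = v i := by simp [mv, Function.update_of_ne hne.symm]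
      funext l
      by_cases hl1 : l = i
      · rw [hl1]
        have : mv i i0 (-c) (mv i0 i k v) i = mv i0 i k v i + (-c) • mv i0 i k v i0 := by
          simp [mv]
        rw [this, A1, A2]
        simp [e0, hi0, hc']
      · by_cases hl0 : l = i0
        · rw [hl0]
          have : mv i i0 (-c) (mv i0 i k v) i0 = mv i0 i k v i0 := by
            simp [mv, Function.update_of_ne hne]
          rw [this, A1]
          simp [e0, i0]
        · have h3 : mv i i0 (-c) (mv i0 i k v) l = v l := by
            simp [mv, Function.update_of_ne hl1, Function.update_of_ne hl0]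
          rw [h3, hi l hl1]
          have : l.val ≠ 0 := by
            intro h
            apply hl0
            exact Fin.ext (by simpa [i0] using h)
          simp [e0, this]

end trans

end Pool.Agent.H44.TILF
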