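import Pool.Agent.H44.TILF.Fin1

set_option autoImplicit false

namespace Pool.Agent.H44.TILF

open Finset

lemma not_gens_prime {n m : ℕ} [NeZero n] {v : Fin m → ZMod n} (hv : v ∉ gens (ZMod n) m) :
    ∃ p : ℕ, p.Prime ∧ p ∣ n ∧ ∀ j, p ∣ (v j).val := by
  set K := AddSubgroup.closure (Set.range v) with hK
  have hKtop : K ≠ ⊤ := by
    intro h
    exact hv h
  have hidx : K.index ≠ 1 := by
    intro h
    exact hKtop (AddSubgroup.index_eq_one.mp h)
  obtain ⟨p, hp, hpd⟩ := Nat.exists_prime_and_dvd hidx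
  have hcard : Nat.card K * K.index = n := by
    have := AddSubgroup.card_mul_index K
    rwa [Nat.card_zmod] at this
  refine ⟨p, hp, ?_, ?_⟩
  · rw [← hcard]
    exact Dvd.dvd.mul_left hpd _
  · intro j
    have hvj : v j ∈ K := AddSubgroup.subset_closure (Set.mem_range_self j)
    have h1 : Nat.card K • v j = 0 := by
      have h2 : Nat.card K • (⟨v j, hvj⟩ : K) = 0 := card_nsmul_eq_zero'
      have h3 := congrArg (fun x : K => (x : ZMod n)) h2
      exact h3
    have h2 : ((Nat.card K * (v j).val : ℕ) : ZMod n) = 0 := by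
      rw [Nat.cast_mul, ZMod.natCast_zmod_val, ← nsmul_eq_mul]
      exact h1
    rw [ZMod.natCast_eq_zero_iff] at h2
    have hpos : 0 < Nat.card K := Nat.card_pos
    have h3 : K.index ∣ (v j).val := by
      have h4 : Nat.card K * K.index ∣ Nat.card K * (v j).val := by
        rw [hcard]; exact h2
      exact Nat.dvd_of_mul_dvd_mul_left hpos h4
    exact hpd.trans h3

lemma card_dvd_val {n p : ℕ} [NeZero n] (hpn : p ∣ n) :
    (univ.filter (fun x : ZMod n => p ∣ x.val)).card ≤ n / p := by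
  have h1 : (univ.filter (fun x : ZMod n => p ∣ x.val)).card ≤ (Finset.range (n / p)).card := by
    apply Finset.card_le_card_of_injOn (fun x => x.val / p)
    · intro x hx
      simp only [Finset.coe_filter, Finset.mem_univ, true_and, Set.mem_ofPred_eq] at hx
      simp only [Finset.coe_range, Set.mem_Iio]
      have := ZMod.val_lt x
      exact Nat.div_lt_div_of_lt_of_dvd hpn this
    · intro x hx y hy hxy
      simp only [Finset.coe_filter, Finset.mem_univ, true_and, Set.mem_ofPred_eq] at hx hy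
      apply ZMod.val_injective n
      have h1 := Nat.div_mul_cancel hx
      have h2 := Nat.div_mul_cancel hy
      simp only at hxy
      rw [← h1, ← h2, hxy]
  simpa using h1

lemma sum_inv_cube (N : ℕ) : ∑ k ∈ Finset.range N, 1 / ((k : ℝ) + 2) ^ 3 ≤
    1 / 4 - 1 / (2 * ((N : ℝ) + 1) * ((N : ℝ) + 2)) := by
  induction N with
  | zero => norm_num
  | succ N ih =>
    rw [Finset.sum_range_succ]
    have hN : (0 : ℝ) ≤ N := Nat.cast_nonneg N
    have key : 1 / ((N : ℝ) + 2) ^ 3 ≤ 1 / (2 * ((N : ℝ) + 1) * ((N : ℝ) + 2)) -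
        1 / (2 * ((N : ℝ) + 2) * ((N : ℝ) + 3)) := by
      have : 1 / (2 * ((N : ℝ) + 1) * ((N : ℝ) + 2)) -
        1 / (2 * ((N : ℝ) + 2) * ((N : ℝ) + 3)) =
          1 / (((N : ℝ) + 1) * ((N : ℝ) + 2) * ((N : ℝ) + 3)) := by
        field_simp
        ring
      rw [this]
      apply one_div_le_one_div_of_le
      · positivity
      · nlinarith
    push_cast
    have e1 : (N : ℝ) + 1 + 1 = N + 2 := by ring
    have e2 : (N : ℝ) + 1 + 2 = N + 3 := by ring
    rw [e1, e2]
    linarith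

lemma sum_prime_cube (n : ℕ) : ∑ p ∈ n.primeFactors, 1 / (p : ℝ) ^ 3 ≤ 1 / 4 := by
  have h1 : ∑ p ∈ n.primeFactors, 1 / (p : ℝ) ^ 3 ≤
      ∑ k ∈ (Finset.range n).image (fun k : ℕ => k + 2), 1 / ((k : ℕ) : ℝ) ^ 3 := by
    apply Finset.sum_le_sum_of_subset_of_nonneg
    · intro p hp
      have hpp := Nat.prime_of_mem_primeFactors hp
      have hle := Nat.le_of_mem_primeFactors hp
      have h2 := hpp.two_le
      rw [Finset.mem_image]
      exact ⟨p - 2, by rw [Finset.mem_range]; omega, by omega⟩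
    · intro i _ _
      positivity
  have h2 : ∑ k ∈ (Finset.range n).image (fun k : ℕ => k + 2), 1 / ((k : ℕ) : ℝ) ^ 3 =
      ∑ k ∈ Finset.range n, 1 / ((k : ℝ) + 2) ^ 3 := by
    rw [Finset.sum_image]
    · apply Finset.sum_congr rfl
      intro k _
      push_cast
      rfl
    · intro a _ b _ hab
      simp only at hab
      omega
  rw [h2] at h1
  have h3 := sum_inv_cube n
  have h4 : (0 : ℝ) ≤ 1 / (2 * ((n : ℝ) + 1) * ((n : ℝ) + 2)) := by positivity
  linarith

open Classical in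
/-- At least three quarters of the `m`-tuples of `ZMod n` generate it, if `m ≥ 3`. -/
theorem card_gens {n m : ℕ} [NeZero n] (hm : 3 ≤ m) :
    (3 / 4 : ℝ) * (n : ℝ) ^ m ≤ ((univ.filter (fun v : Fin m → ZMod n => v ∈ gens (ZMod n) m)).card : ℝ) := by
  have hn : 0 < n := Nat.pos_of_ne_zero (NeZero.ne n)
  set U := univ.filter (fun v : Fin m → ZMod n => v ∈ gens (ZMod n) m) with hU
  set V := univ.filter (fun v : Fin m → ZMod n => v ∉ gens (ZMod n) m) with hV
  have h1 : U.card + V.card = n ^ m := by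
    rw [hU, hV, Finset.card_filter_add_card_filter_not]
    simp [ZMod.card]
  let B : ℕ → Finset (Fin m → ZMod n) := fun p =>
    Fintype.piFinset (fun _ => univ.filter (fun x : ZMod n => p ∣ x.val))
  have h2 : V ⊆ n.primeFactors.biUnion B := by
    intro v hv
    rw [hV, Finset.mem_filter] at hv
    obtain ⟨p, hp, hpn, hpv⟩ := not_gens_prime hv.2
    rw [Finset.mem_biUnion]
    refine ⟨p, Nat.mem_primeFactors.mpr ⟨hp, hpn, NeZero.ne n⟩, ?_⟩
    simp only [B, Fintype.mem_piFinset, Finset.mem_filter, Finset.mem_univ, true_and]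
    exact hpv
  have h3 : (V.card : ℝ) ≤ ∑ p ∈ n.primeFactors, ((B p).card : ℝ) := by
    have h4 : V.card ≤ ∑ p ∈ n.primeFactors, (B p).card :=
      (Finset.card_le_card h2).trans Finset.card_biUnion_le
    exact_mod_cast h4
  have h5 : ∀ p ∈ n.primeFactors, ((B p).card : ℝ) ≤ (n : ℝ) ^ m * (1 / (p : ℝ) ^ 3) := by
    intro p hp
    have hpp := Nat.prime_of_mem_primeFactors hp
    have hpn := Nat.dvd_of_mem_primeFactors hp
    have hp0 : (0 : ℝ) < p := by exact_mod_cast hpp.pos
    have hp1 : (1 : ℝ) ≤ p := by exact_mod_cast hpp.one_lt.le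
    have h6 : (B p).card ≤ (n / p) ^ m := by
      simp only [B]
      rw [Fintype.card_piFinset_const]
      exact Nat.pow_le_pow_left (card_dvd_val hpn) m
    have h7 : ((n / p : ℕ) : ℝ) = (n : ℝ) / p := Nat.cast_div hpn (ne_of_gt hp0)
    calc ((B p).card : ℝ) ≤ (((n / p) ^ m : ℕ) : ℝ) := by exact_mod_cast h6
      _ = ((n : ℝ) / p) ^ m := by rw [Nat.cast_pow, h7]
      _ = (n : ℝ) ^ m * (1 / (p : ℝ) ^ m) := by rw [div_pow]; ring
      _ ≤ (n : ℝ) ^ m * (1 / (p : ℝ) ^ 3) := by
          apply mul_le_mul_of_nonneg_left _ (by positivity)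
          apply one_div_le_one_div_of_le (by positivity)
          exact pow_le_pow_right₀ hp1 hm
  have h8 : (V.card : ℝ) ≤ (n : ℝ) ^ m * (1 / 4) := by
    calc (V.card : ℝ) ≤ ∑ p ∈ n.primeFactors, ((B p).card : ℝ) := h3
      _ ≤ ∑ p ∈ n.primeFactors, (n : ℝ) ^ m * (1 / (p : ℝ) ^ 3) := Finset.sum_le_sum h5
      _ = (n : ℝ) ^ m * ∑ p ∈ n.primeFactors, (1 / (p : ℝ) ^ 3) := by rw [Finset.mul_sum]
      _ ≤ (n : ℝ) ^ m * (1 / 4) := by
          apply mul_le_mul_of_nonneg_left (sum_prime_cube n) (by positivity)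
  have h9 : (U.card : ℝ) + V.card = (n : ℝ) ^ m := by exact_mod_cast h1
  linarith

open Classical in
/-- **Equidistribution.** If `a` runs over the generating `m`-tuples of a finite abelian group `A`
and `π : A → ZMod n` is onto, then the average of `h(π a)` is at most `4/3` times the average of
`h` over all tuples (for `h ≥ 0`); only generating tuples contribute. -/
theorem equidist {A : Type*} [AddCommGroup A] [Fintype A] {n m : ℕ} [NeZero n] (hm : 3 ≤ m)
    (π : A →+ ZMod n) (hπ : Function.Surjective π) (h : (Fin m → ZMod n) → ℝ)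
    (h0 : ∀ v, 0 ≤ h v) :
    ∑ a ∈ univ.filter (fun a : Fin m → A => a ∈ gens A m), h (fun l => π (a l)) ≤
      (4 / 3) * (((univ.filter (fun a : Fin m → A => a ∈ gens A m)).card : ℝ) / (n : ℝ) ^ m) *
        ∑ v ∈ univ.filter (fun v : Fin m → ZMod n => v ∈ gens (ZMod n) m), h v := by
  set S := univ.filter (fun a : Fin m → A => a ∈ gens A m) with hS
  set U := univ.filter (fun v : Fin m → ZMod n => v ∈ gens (ZMod n) m) with hU
  let N : (Fin m → ZMod n) → ℕ := fun v => (S.filter (fun a => (fun l => π (a l)) = v)).card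
  have hN : ∀ (i j : Fin m) (_ : i ≠ j) (k : ℤ) (v : Fin m → ZMod n), N (mv i j k v) = N v := by
    intro i j hij k v
    symm
    apply Finset.card_equiv (mvEquiv hij k)
    intro a
    simp only [hS, Finset.mem_filter, Finset.mem_univ, true_and, mvEquiv, Equiv.coe_fn_mk]
    rw [mem_gens_mv hij k a, map_mv]
    constructor
    · rintro ⟨h1, h2⟩
      exact ⟨h1, by rw [h2]⟩
    · rintro ⟨h1, h2⟩
      refine ⟨h1, ?_⟩
      exact (mvEquiv hij k).injective h2
  have hconst : ∀ v ∈ U, N v = N (e0 n m) := by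
    intro v hv
    rw [hU, Finset.mem_filter] at hv
    exact trans_e0 (by omega) N hN _ v hv.2 rfl
  have hmaps : ∀ a ∈ S, (fun l => π (a l)) ∈ U := by
    intro a ha
    rw [hS, Finset.mem_filter] at ha
    rw [hU, Finset.mem_filter]
    exact ⟨Finset.mem_univ _, mem_gens_map π hπ ha.2⟩
  have hsum : ∑ a ∈ S, h (fun l => π (a l)) = ∑ v ∈ U, (N v : ℝ) * h v := by
    rw [← Finset.sum_fiberwise_of_maps_to hmaps]
    apply Finset.sum_congr rfl
    intro v _
    rw [Finset.sum_congr rfl (g := fun _ => h v)]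
    · rw [Finset.sum_const, nsmul_eq_mul]
    · intro a ha
      rw [Finset.mem_filter] at ha
      rw [ha.2]
  have hcard : S.card = U.card * N (e0 n m) := by
    rw [Finset.card_eq_sum_card_fiberwise hmaps]
    rw [Finset.sum_congr rfl hconst, Finset.sum_const, smul_eq_mul]
  have hUc : (3 / 4 : ℝ) * (n : ℝ) ^ m ≤ (U.card : ℝ) := card_gens hm
  have hn : (0 : ℝ) < (n : ℝ) ^ m := by
    have : (0 : ℝ) < n := by exact_mod_cast Nat.pos_of_ne_zero (NeZero.ne n)
    positivity
  rw [hsum]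
  have h1 : ∑ v ∈ U, (N v : ℝ) * h v = (N (e0 n m) : ℝ) * ∑ v ∈ U, h v := by
    rw [Finset.mul_sum]
    apply Finset.sum_congr rfl
    intro v hv
    rw [hconst v hv]
  rw [h1]
  apply mul_le_mul_of_nonneg_right _ (Finset.sum_nonneg (fun v _ => h0 v))
  rw [hcard]
  push_cast
  have hN0 : (0 : ℝ) ≤ N (e0 n m) := Nat.cast_nonneg _
  rw [← mul_div_assoc, le_div_iff₀ hn]
  nlinarith

end Pool.Agent.H44.TILF
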