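import Pool.Agent.H44.TILF.Fin2

set_option autoImplicit false

namespace Pool.Agent.H44.TILF

open Finset

/-- distance to `0` in `ZMod n` -/
def zd {n : ℕ} (x : ZMod n) : ℕ := min x.val (n - x.val)

lemma chord_lower {n : ℕ} [NeZero n] (x : ZMod n) :
    4 * (zd x : ℝ) / n ≤ ‖1 - ((ZMod.toCircle x : Circle) : ℂ)‖ := by
  have hn : (0 : ℝ) < n := by exact_mod_cast Nat.pos_of_ne_zero (NeZero.ne n)
  have hlt := ZMod.val_lt x
  have h1 : ‖1 - ((ZMod.toCircle x : Circle) : ℂ)‖ = 2 * |Real.sin (Real.pi * (x.val / n))| := by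
    rw [ZMod.toCircle_eq_circleExp, Circle.coe_exp, norm_sub_rev]
    have h2 := Complex.norm_exp_I_mul_ofReal_sub_one (2 * Real.pi * (x.val / n))
    rw [mul_comm Complex.I] at h2
    rw [h2, Real.norm_eq_abs, abs_mul, abs_of_pos (by norm_num : (0 : ℝ) < 2)]
    congr 3
    ring
  rw [h1]
  have hx0 : (0 : ℝ) ≤ x.val := Nat.cast_nonneg _
  by_cases hc : 2 * x.val ≤ n
  · have hz : zd x = x.val := by
      unfold zd; omega
    rw [hz]
    have h3 : Real.pi * ((x.val : ℝ) / n) ≤ Real.pi / 2 := by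
      have : (x.val : ℝ) / n ≤ 1 / 2 := by
        rw [div_le_div_iff₀ hn (by norm_num)]
        have : (2 * x.val : ℝ) ≤ n := by exact_mod_cast hc
        linarith
      nlinarith [Real.pi_pos]
    have h4 : 0 ≤ Real.pi * ((x.val : ℝ) / n) := by positivity
    have h5 := Real.mul_le_sin h4 h3
    have h6 : 2 / Real.pi * (Real.pi * ((x.val : ℝ) / n)) = 2 * ((x.val : ℝ) / n) := by
      field_simp
    rw [h6] at h5
    have h7 := le_abs_self (Real.sin (Real.pi * ((x.val : ℝ) / n)))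
    have h8 : 4 * (x.val : ℝ) / n = 2 * (2 * ((x.val : ℝ) / n)) := by ring
    rw [h8]
    linarith
  · have hz : zd x = n - x.val := by
      unfold zd; omega
    have hcast : ((n - x.val : ℕ) : ℝ) = (n : ℝ) - x.val := by
      rw [Nat.cast_sub hlt.le]
    rw [hz, hcast]
    have h2n : (n : ℝ) < 2 * x.val := by exact_mod_cast (not_le.mp hc)
    have hltr : (x.val : ℝ) < n := by exact_mod_cast hlt
    have hs : Real.sin (Real.pi * ((x.val : ℝ) / n)) = Real.sin (Real.pi * (((n : ℝ) - x.val) / n)) := by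
      rw [← Real.sin_pi_sub]
      congr 1
      field_simp
    rw [hs]
    have h3 : Real.pi * (((n : ℝ) - x.val) / n) ≤ Real.pi / 2 := by
      have : ((n : ℝ) - x.val) / n ≤ 1 / 2 := by
        rw [div_le_div_iff₀ hn (by norm_num)]
        linarith
      nlinarith [Real.pi_pos]
    have h4 : 0 ≤ Real.pi * (((n : ℝ) - x.val) / n) := by
      apply mul_nonneg Real.pi_pos.le
      apply div_nonneg (by linarith) hn.le
    have h5 := Real.mul_le_sin h4 h3
    have h6 : 2 / Real.pi * (Real.pi * (((n : ℝ) - x.val) / n)) = 2 * (((n : ℝ) - x.val) / n) := by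
      field_simp
    rw [h6] at h5
    have h7 := le_abs_self (Real.sin (Real.pi * (((n : ℝ) - x.val) / n)))
    have h8 : 4 * ((n : ℝ) - x.val) / n = 2 * (2 * (((n : ℝ) - x.val) / n)) := by ring
    rw [h8]
    linarith

/-- the weight `(1 + t²)^(-1/3)` -/
noncomputable def wt (t : ℕ) : ℝ := (1 + (t : ℝ) ^ 2) ^ (-(1 / 3) : ℝ)

lemma wt_pos (t : ℕ) : 0 < wt t := by
  unfold wt; positivity

lemma wt_succ_le (s : ℕ) :
    wt (s + 1) ≤ 3 * (((s + 1 : ℕ) : ℝ) ^ (1 / 3 : ℝ) - (s : ℝ) ^ (1 / 3 : ℝ)) := by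
  set x : ℝ := ((s + 1 : ℕ) : ℝ) ^ (1 / 3 : ℝ) with hx
  set y : ℝ := (s : ℝ) ^ (1 / 3 : ℝ) with hy
  have hx0 : 0 < x := by
    rw [hx]; positivity
  have hy0 : 0 ≤ y := by
    rw [hy]; positivity
  have hx3 : x ^ 3 = (s : ℝ) + 1 := by
    rw [hx, ← Real.rpow_natCast, ← Real.rpow_mul (by positivity)]
    norm_num
  have hy3 : y ^ 3 = (s : ℝ) := by
    rw [hy, ← Real.rpow_natCast, ← Real.rpow_mul (by positivity)]
    norm_num
  have hyx : y ≤ x := by
    rw [hx, hy]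
    apply Real.rpow_le_rpow (by positivity) _ (by norm_num)
    push_cast; linarith
  have hw : wt (s + 1) ≤ 1 / x ^ 2 := by
    have h1 : wt (s + 1) ≤ ((((s + 1 : ℕ) : ℝ)) ^ 2) ^ (-(1 / 3) : ℝ) := by
      unfold wt
      apply Real.rpow_le_rpow_of_nonpos (by positivity) (by linarith) (by norm_num)
    have h2 : ((((s + 1 : ℕ) : ℝ)) ^ 2) ^ (-(1 / 3) : ℝ) = 1 / x ^ 2 := by
      have e1 : ((((s + 1 : ℕ) : ℝ)) ^ 2) ^ (-(1 / 3) : ℝ) =
          (((s + 1 : ℕ) : ℝ)) ^ (-(2 / 3) : ℝ) := by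
        rw [← Real.rpow_natCast, ← Real.rpow_mul (by positivity)]
        norm_num
      have e2 : x ^ 2 = (((s + 1 : ℕ) : ℝ)) ^ ((2 / 3) : ℝ) := by
        rw [hx, ← Real.rpow_natCast, ← Real.rpow_mul (by positivity)]
        norm_num
      rw [e1, e2, Real.rpow_neg (by positivity), one_div]
    rw [h2] at h1
    exact h1
  have hkey : 1 / x ^ 2 ≤ 3 * (x - y) := by
    rw [div_le_iff₀ (by positivity)]
    have h1 : (x - y) * (x ^ 2 + x * y + y ^ 2) = 1 := by
      have : (x - y) * (x ^ 2 + x * y + y ^ 2) = x ^ 3 - y ^ 3 := by ring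
      rw [this, hx3, hy3]; ring
    have h2 : x ^ 2 + x * y + y ^ 2 ≤ 3 * x ^ 2 := by nlinarith
    have h3 : 0 ≤ x - y := by linarith
    nlinarith
  linarith

lemma sum_wt_succ (n : ℕ) : ∑ s ∈ Finset.range n, wt (s + 1) ≤ 3 * (n : ℝ) ^ (1 / 3 : ℝ) := by
  induction n with
  | zero => simp
  | succ n ih =>
    rw [Finset.sum_range_succ]
    have := wt_succ_le n
    linarith

lemma sum_wt (n : ℕ) (hn : 0 < n) : ∑ s ∈ Finset.range n, wt s ≤ 4 * (n : ℝ) ^ (1 / 3 : ℝ) := by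
  obtain ⟨k, rfl⟩ : ∃ k, n = k + 1 := ⟨n - 1, by omega⟩
  rw [Finset.sum_range_succ']
  have h1 := sum_wt_succ k
  have h2 : wt 0 = 1 := by simp [wt]
  have h3 : (k : ℝ) ^ (1 / 3 : ℝ) ≤ ((k + 1 : ℕ) : ℝ) ^ (1 / 3 : ℝ) := by
    apply Real.rpow_le_rpow (by positivity) _ (by norm_num)
    push_cast; linarith
  have h4 : (1 : ℝ) ≤ ((k + 1 : ℕ) : ℝ) ^ (1 / 3 : ℝ) := by
    apply Real.one_le_rpow _ (by norm_num)
    push_cast
    have : (0 : ℝ) ≤ k := Nat.cast_nonneg k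
    linarith
  linarith

lemma sum_zmod {n : ℕ} [NeZero n] (f : ℕ → ℝ) : ∑ x : ZMod n, f x.val = ∑ t ∈ Finset.range n, f t := by
  apply Finset.sum_bij (fun (x : ZMod n) _ => x.val)
  · intro x _
    exact Finset.mem_range.mpr (ZMod.val_lt x)
  · intro x _ y _ h
    exact ZMod.val_injective n h
  · intro t ht
    refine ⟨(t : ZMod n), Finset.mem_univ _, ?_⟩
    exact ZMod.val_natCast_of_lt (Finset.mem_range.mp ht)
  · intro x _
    rfl

lemma sum_wt_zd {n : ℕ} [NeZero n] : ∑ x : ZMod n, wt (zd x) ≤ 7 * (n : ℝ) ^ (1 / 3 : ℝ) := by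
  have hn : 0 < n := Nat.pos_of_ne_zero (NeZero.ne n)
  have h1 : ∀ x : ZMod n, wt (zd x) ≤ wt x.val + wt (n - x.val) := by
    intro x
    have p1 := wt_pos x.val
    have p2 := wt_pos (n - x.val)
    unfold zd
    rcases le_total x.val (n - x.val) with h | h
    · rw [min_eq_left h]; linarith
    · rw [min_eq_right h]; linarith
  have h2 : ∑ x : ZMod n, wt (zd x) ≤ ∑ x : ZMod n, (wt x.val + wt (n - x.val)) :=
    Finset.sum_le_sum (fun x _ => h1 x)
  rw [Finset.sum_add_distrib, sum_zmod (fun t => wt t), sum_zmod (fun t => wt (n - t))] at h2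
  have h3 : ∑ t ∈ Finset.range n, wt (n - t) = ∑ s ∈ Finset.range n, wt (s + 1) := by
    rw [← Finset.sum_range_reflect]
    apply Finset.sum_congr rfl
    intro t ht
    rw [Finset.mem_range] at ht
    congr 1
    omega
  rw [h3] at h2
  have h4 := sum_wt_succ n
  have h5 := sum_wt n hn
  linarith

/-- the denominator -/
noncomputable def DD {n m : ℕ} [NeZero n] (v : Fin m → ZMod n) : ℝ :=
  ∑ j, ‖1 - ((ZMod.toCircle (v j) : Circle) : ℂ)‖ ^ 2

/-- the factors -/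
noncomputable def gg {n m : ℕ} (j : Fin m) (x : ZMod n) : ℝ := if j.val < 3 then wt (zd x) else 1

lemma zd_pos {n : ℕ} [NeZero n] {x : ZMod n} (hx : x ≠ 0) : 1 ≤ zd x := by
  have h1 : x.val ≠ 0 := fun h => hx ((ZMod.val_eq_zero _).mp h)
  have h2 := ZMod.val_lt x
  unfold zd
  omega

lemma card_lt_three {m : ℕ} (hm : 3 ≤ m) :
    (univ.filter (fun j : Fin m => j.val < 3)).card = 3 := by
  have : univ.filter (fun j : Fin m => j.val < 3) =
      (univ : Finset (Fin 3)).map (Fin.castLEEmb hm) := by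
    ext j
    simp only [Finset.mem_filter, Finset.mem_univ, true_and, Finset.mem_map, Fin.castLEEmb_apply]
    constructor
    · intro h
      exact ⟨⟨j.val, h⟩, by ext; simp⟩
    · rintro ⟨i, rfl⟩
      simp
  rw [this, Finset.card_map]
  simp

lemma prod_ite_three {m : ℕ} (hm : 3 ≤ m) (a b : ℝ) :
    ∏ j : Fin m, (if j.val < 3 then a else b) = a ^ 3 * b ^ (m - 3) := by
  rw [Finset.prod_ite, Finset.prod_const, Finset.prod_const, card_lt_three hm]
  congr 2
  have h1 := Finset.card_filter_add_card_filter_not (s := (univ : Finset (Fin m)))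
    (fun j : Fin m => j.val < 3)
  rw [card_lt_three hm, Finset.card_univ, Fintype.card_fin] at h1
  omega

lemma inv_DD_le {n m : ℕ} [NeZero n] (hm : 3 ≤ m) {v : Fin m → ZMod n} (hv : v ≠ 0) :
    (DD v)⁻¹ ≤ ((n : ℝ) ^ 2 / 8) * ∏ j, gg j (v j) := by
  have hn : (0 : ℝ) < n := by exact_mod_cast Nat.pos_of_ne_zero (NeZero.ne n)
  set T : ℝ := 1 + ∑ j, (zd (v j) : ℝ) ^ 2 with hT
  obtain ⟨i, hi⟩ : ∃ i, v i ≠ 0 := by
    by_contra h
    push Not at h
    exact hv (funext h)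
  have hsum1 : 1 ≤ ∑ j, (zd (v j) : ℝ) ^ 2 := by
    have h1 : (zd (v i) : ℝ) ^ 2 ≤ ∑ j, (zd (v j) : ℝ) ^ 2 :=
      Finset.single_le_sum (f := fun j => (zd (v j) : ℝ) ^ 2) (fun j _ => by positivity)
        (Finset.mem_univ i)
    have h2 : (1 : ℝ) ≤ zd (v i) := by exact_mod_cast zd_pos hi
    nlinarith
  have hT0 : 0 < T := by rw [hT]; linarith
  have hD : (8 / (n : ℝ) ^ 2) * T ≤ DD v := by
    have h1 : ∑ j, (16 / (n : ℝ) ^ 2) * (zd (v j) : ℝ) ^ 2 ≤ DD v := by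
      unfold DD
      apply Finset.sum_le_sum
      intro j _
      have h2 := chord_lower (v j)
      have h3 : 0 ≤ 4 * (zd (v j) : ℝ) / n := by positivity
      have h4 : (4 * (zd (v j) : ℝ) / n) ^ 2 ≤ ‖1 - ((ZMod.toCircle (v j) : Circle) : ℂ)‖ ^ 2 :=
        pow_le_pow_left₀ h3 h2 2
      have h5 : (4 * (zd (v j) : ℝ) / n) ^ 2 = (16 / (n : ℝ) ^ 2) * (zd (v j) : ℝ) ^ 2 := by
        field_simp; ring
      rw [h5] at h4
      exact h4
    rw [← Finset.mul_sum] at h1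
    have h2 : (8 / (n : ℝ) ^ 2) * T ≤ (16 / (n : ℝ) ^ 2) * ∑ j, (zd (v j) : ℝ) ^ 2 := by
      have h3 : (16 / (n : ℝ) ^ 2) * ∑ j, (zd (v j) : ℝ) ^ 2 =
          (8 / (n : ℝ) ^ 2) * (2 * ∑ j, (zd (v j) : ℝ) ^ 2) := by ring
      rw [h3]
      apply mul_le_mul_of_nonneg_left _ (by positivity)
      rw [hT]; linarith
    linarith
  have hprod : T⁻¹ ≤ ∏ j, gg j (v j) := by
    have h1 : ∏ j : Fin m, (if j.val < 3 then T ^ (-(1 / 3) : ℝ) else 1) ≤ ∏ j, gg j (v j) := by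
      apply Finset.prod_le_prod
      · intro j _
        split_ifs
        · positivity
        · norm_num
      · intro j _
        unfold gg
        split_ifs
        · unfold wt
          apply Real.rpow_le_rpow_of_nonpos (by positivity) _ (by norm_num)
          rw [hT]
          have : (zd (v j) : ℝ) ^ 2 ≤ ∑ j, (zd (v j) : ℝ) ^ 2 :=
            Finset.single_le_sum (f := fun j => (zd (v j) : ℝ) ^ 2) (fun j _ => by positivity)
              (Finset.mem_univ j)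
          linarith
        · exact le_refl _
    rw [prod_ite_three hm] at h1
    have h2 : (T ^ (-(1 / 3) : ℝ)) ^ 3 * 1 ^ (m - 3) = T⁻¹ := by
      rw [one_pow, mul_one, ← Real.rpow_natCast, ← Real.rpow_mul hT0.le]
      rw [← Real.rpow_neg_one]
      norm_num
    rw [h2] at h1
    exact h1
  calc (DD v)⁻¹ ≤ ((8 / (n : ℝ) ^ 2) * T)⁻¹ := by
        apply inv_anti₀ _ hD
        positivity
    _ = ((n : ℝ) ^ 2 / 8) * T⁻¹ := by
        rw [mul_inv, inv_div]
    _ ≤ ((n : ℝ) ^ 2 / 8) * ∏ j, gg j (v j) := by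
        apply mul_le_mul_of_nonneg_left hprod (by positivity)

lemma sum_prod_gg {n m : ℕ} [NeZero n] (hm : 3 ≤ m) :
    ∑ v : Fin m → ZMod n, ∏ j, gg j (v j) ≤ 343 * ((n : ℝ) * (n : ℝ) ^ (m - 3)) := by
  have hn : (0 : ℝ) < n := by exact_mod_cast Nat.pos_of_ne_zero (NeZero.ne n)
  have h1 : ∑ v : Fin m → ZMod n, ∏ j, gg j (v j) = ∏ j : Fin m, ∑ x : ZMod n, gg j x := by
    rw [Finset.prod_univ_sum]
    simp
  rw [h1]
  have h2 : ∀ j : Fin m, ∑ x : ZMod n, gg j x =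
      if j.val < 3 then ∑ x : ZMod n, wt (zd x) else (n : ℝ) := by
    intro j
    unfold gg
    split_ifs
    · rfl
    · simp [ZMod.card]
  rw [Finset.prod_congr rfl (fun j _ => h2 j), prod_ite_three hm, ← mul_assoc]
  apply mul_le_mul_of_nonneg_right _ (by positivity)
  have h3 := sum_wt_zd (n := n)
  have h4 : 0 ≤ ∑ x : ZMod n, wt (zd x) := Finset.sum_nonneg (fun x _ => (wt_pos _).le)
  calc (∑ x : ZMod n, wt (zd x)) ^ 3 ≤ (7 * (n : ℝ) ^ (1 / 3 : ℝ)) ^ 3 := pow_le_pow_left₀ h4 h3 3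
    _ = 343 * ((n : ℝ) ^ (1 / 3 : ℝ)) ^ 3 := by ring
    _ = 343 * n := by
        rw [← Real.rpow_natCast, ← Real.rpow_mul hn.le]
        norm_num

open Classical in
/-- The average over generating `m`-tuples (`m ≥ 3`) of a finite abelian group of
`1 / ∑ |1 - ξ(a_j)|²` is at most `58`. -/
theorem avg_le {A : Type*} [AddCommGroup A] [Fintype A] {n m : ℕ} [NeZero n] (hn2 : 2 ≤ n)
    (hm : 3 ≤ m) (π : A →+ ZMod n) (hπ : Function.Surjective π) :
    ∑ a ∈ univ.filter (fun a : Fin m → A => a ∈ gens A m), (DD (fun l => π (a l)))⁻¹ ≤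
      58 * ((univ.filter (fun a : Fin m → A => a ∈ gens A m)).card : ℝ) := by
  have hn : (0 : ℝ) < n := by exact_mod_cast Nat.pos_of_ne_zero (NeZero.ne n)
  have hDD0 : ∀ v : Fin m → ZMod n, 0 ≤ (DD v)⁻¹ := by
    intro v
    unfold DD
    positivity
  have h1 := equidist hm π hπ (fun v => (DD v)⁻¹) hDD0
  refine h1.trans ?_
  set S := univ.filter (fun a : Fin m → A => a ∈ gens A m) with hS
  set U := univ.filter (fun v : Fin m → ZMod n => v ∈ gens (ZMod n) m) with hU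
  have hgg0 : ∀ v : Fin m → ZMod n, 0 ≤ ∏ j, gg j (v j) := by
    intro v
    apply Finset.prod_nonneg
    intro j _
    unfold gg
    split_ifs
    · exact (wt_pos _).le
    · norm_num
  have h2 : ∑ v ∈ U, (DD v)⁻¹ ≤ ((n : ℝ) ^ 2 / 8) * (343 * ((n : ℝ) * (n : ℝ) ^ (m - 3))) := by
    calc ∑ v ∈ U, (DD v)⁻¹ ≤ ∑ v ∈ U, ((n : ℝ) ^ 2 / 8) * ∏ j, gg j (v j) := by
          apply Finset.sum_le_sum
          intro v hv
          apply inv_DD_le hm
          rintro rfl
          rw [hU, Finset.mem_filter] at hv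
          have h3 := hv.2
          simp only [gens, Set.mem_ofPred_eq] at h3
          have h4 : AddSubgroup.closure (Set.range (0 : Fin m → ZMod n)) ≤ ⊥ := by
            rw [AddSubgroup.closure_le]
            rintro _ ⟨l, rfl⟩
            simp
          rw [h3] at h4
          have h5 : (1 : ZMod n) ∈ (⊥ : AddSubgroup (ZMod n)) := h4 trivial
          rw [AddSubgroup.mem_bot] at h5
          have : Fact (1 < n) := ⟨by omega⟩
          exact one_ne_zero h5
      _ ≤ ∑ v : Fin m → ZMod n, ((n : ℝ) ^ 2 / 8) * ∏ j, gg j (v j) := by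
          apply Finset.sum_le_sum_of_subset_of_nonneg (Finset.subset_univ _)
          intro v _ _
          exact mul_nonneg (by positivity) (hgg0 v)
      _ = ((n : ℝ) ^ 2 / 8) * ∑ v : Fin m → ZMod n, ∏ j, gg j (v j) := by rw [Finset.mul_sum]
      _ ≤ _ := mul_le_mul_of_nonneg_left (sum_prod_gg hm) (by positivity)
  have h3 : ((n : ℝ) ^ 2 / 8) * (343 * ((n : ℝ) * (n : ℝ) ^ (m - 3))) = (343 / 8) * (n : ℝ) ^ m := by
    obtain ⟨k, rfl⟩ : ∃ k, m = k + 3 := ⟨m - 3, by omega⟩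
    rw [Nat.add_sub_cancel]
    ring
  rw [h3] at h2
  have hSc : (0 : ℝ) ≤ (S.card : ℝ) := Nat.cast_nonneg _
  calc (4 / 3) * ((S.card : ℝ) / (n : ℝ) ^ m) * ∑ v ∈ U, (DD v)⁻¹
      ≤ (4 / 3) * ((S.card : ℝ) / (n : ℝ) ^ m) * ((343 / 8) * (n : ℝ) ^ m) := by
        apply mul_le_mul_of_nonneg_left h2 (by positivity)
    _ = (343 / 6) * (S.card : ℝ) := by
        field_simp
        ring
    _ ≤ 58 * (S.card : ℝ) := by
        apply mul_le_mul_of_nonneg_right _ hSc
        norm_num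

end Pool.Agent.H44.TILF
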