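import Pool.Agent.H44.TILF.Fin3

set_option autoImplicit false

namespace Pool.Agent.H44.TILF

open Finset

lemma exists_toCircle {n : ℕ} [NeZero n] (z : Circle) (hz : z ^ n = 1) :
    ∃ k : ZMod n, ZMod.toCircle k = z := by
  have h1 : ((z : ℂ)) ^ n = 1 := by
    rw [← Circle.coe_pow, hz, Circle.coe_one]
  let u : ℂˣ := Circle.toUnits z
  have hu : (u : ℂ) = z := by simp [u]
  have h2 : u ∈ rootsOfUnity n ℂ := by
    rw [mem_rootsOfUnity']
    rw [hu, h1]
  rw [Complex.mem_rootsOfUnity] at h2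
  obtain ⟨i, _, hi⟩ := h2
  refine ⟨(i : ZMod n), ?_⟩
  apply Circle.ext
  rw [ZMod.toCircle_natCast, ← hu, ← hi]
  congr 1
  ring

/-- A character of a finite abelian group factors through `ZMod n`, onto. -/
theorem exists_pi {A : Type*} [AddCommGroup A] [Finite A] (ψ : AddChar A Circle)
    (hψ : ∃ x, ψ x ≠ 1) :
    ∃ (n : ℕ) (_ : NeZero n) (π : A →+ ZMod n), 2 ≤ n ∧ Function.Surjective π ∧
      ∀ a, ZMod.toCircle (π a) = ψ a := by
  classical
  let R : Subgroup Circle := ψ.toMonoidHom.range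
  have hRmem : ∀ a, ψ a ∈ R := fun a => ⟨Multiplicative.ofAdd a, rfl⟩
  have hRfin : Finite R := by
    have : Finite (Set.range (ψ.toMonoidHom : Multiplicative A → Circle)) := inferInstance
    exact this
  let n := Nat.card R
  have hn0 : n ≠ 0 := Nat.card_pos.ne'
  have hNZ : NeZero n := ⟨hn0⟩
  have hpow : ∀ z : R, ((z : Circle)) ^ n = 1 := by
    intro z
    have h1 : z ^ n = 1 := pow_card_eq_one'
    have h2 := congrArg (fun x : R => (x : Circle)) h1
    simpa using h2
  choose f hf using fun z : R => exists_toCircle (n := n) (z : Circle) (hpow z)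
  have hfinj : Function.Injective f := by
    intro z w hzw
    apply Subtype.ext
    rw [← hf z, ← hf w, hzw]
  have hfsurj : Function.Surjective f := by
    have : Fintype R := Fintype.ofFinite R
    have hc : Fintype.card R = Fintype.card (ZMod n) := by
      rw [ZMod.card, ← Nat.card_eq_fintype_card]
    exact ((Fintype.bijective_iff_injective_and_card f).mpr ⟨hfinj, hc⟩).2
  let π : A →+ ZMod n :=
    { toFun := fun a => f ⟨ψ a, hRmem a⟩
      map_zero' := by
        apply ZMod.injective_toCircle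
        rw [hf]
        simp
      map_add' := by
        intro a b
        apply ZMod.injective_toCircle
        rw [AddChar.map_add_eq_mul ZMod.toCircle (f ⟨ψ a, hRmem a⟩) (f ⟨ψ b, hRmem b⟩), hf, hf, hf]
        exact AddChar.map_add_eq_mul ψ a b }
  have hπ : ∀ a, ZMod.toCircle (π a) = ψ a := fun a => hf ⟨ψ a, hRmem a⟩
  have hsurj : Function.Surjective π := by
    intro k
    obtain ⟨⟨z, hz⟩, hzk⟩ := hfsurj k
    obtain ⟨a, ha⟩ := hz
    refine ⟨Multiplicative.toAdd a, ?_⟩
    apply ZMod.injective_toCircle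
    rw [hπ, ← hzk, hf]
    exact ha
  refine ⟨n, hNZ, π, ?_, hsurj, hπ⟩
  by_contra hlt
  have hn1 : n = 1 := by omega
  obtain ⟨x, hx⟩ := hψ
  apply hx
  rw [← hπ x]
  have : π x = 0 := by
    have hsub : Subsingleton (ZMod n) := by
      rw [hn1]; infer_instance
    exact Subsingleton.elim _ _
  rw [this]
  simp

/-- the denominator for a character -/
noncomputable def Dc {A : Type*} [AddCommGroup A] {m : ℕ} (ψ : AddChar A Circle) (a : Fin m → A) : ℝ :=
  ∑ j, ‖1 - ((ψ (a j) : Circle) : ℂ)‖ ^ 2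

lemma Dc_nonneg {A : Type*} [AddCommGroup A] {m : ℕ} (ψ : AddChar A Circle) (a : Fin m → A) :
    0 ≤ Dc ψ a := by
  unfold Dc; positivity

lemma Dc_eq_zero {A : Type*} [AddCommGroup A] {m : ℕ} {ψ : AddChar A Circle} {a : Fin m → A} :
    Dc ψ a = 0 ↔ ∀ j, ψ (a j) = 1 := by
  unfold Dc
  rw [Finset.sum_eq_zero_iff_of_nonneg (fun _ _ => by positivity)]
  constructor
  · intro h j
    have h1 := h j (Finset.mem_univ j)
    have h2 : ‖1 - ((ψ (a j) : Circle) : ℂ)‖ = 0 := by
      exact pow_eq_zero_iff (two_ne_zero) |>.mp h1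
    rw [norm_eq_zero, sub_eq_zero] at h2
    apply Circle.ext
    rw [Circle.coe_one]
    exact h2.symm
  · intro h j _
    rw [h j]
    simp

lemma Dc_pos_of_gens {A : Type*} [AddCommGroup A] {m : ℕ} {ψ : AddChar A Circle}
    (hψ : ∃ x, ψ x ≠ 1) {a : Fin m → A} (ha : a ∈ gens A m) : 0 < Dc ψ a := by
  rcases (Dc_nonneg ψ a).lt_or_eq with h | h
  · exact h
  · exfalso
    have h1 := Dc_eq_zero.mp h.symm
    obtain ⟨x, hx⟩ := hψ
    let K : AddSubgroup A :=
      { carrier := {y | ψ y = 1}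
        zero_mem' := by simp
        add_mem' := by
          intro y z hy hz
          simp only [Set.mem_ofPred_eq] at hy hz ⊢
          rw [AddChar.map_add_eq_mul, hy, hz, one_mul]
        neg_mem' := by
          intro y hy
          simp only [Set.mem_ofPred_eq] at hy ⊢
          rw [AddChar.map_neg_eq_inv, hy, inv_one] }
    have hK : AddSubgroup.closure (Set.range a) ≤ K := by
      rw [AddSubgroup.closure_le]
      rintro _ ⟨l, rfl⟩
      exact h1 l
    simp only [gens, Set.mem_ofPred_eq] at ha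
    rw [ha] at hK
    exact hx (hK (show x ∈ (⊤ : AddSubgroup A) from trivial))

open Classical in
/-- The averaging bound for a non-trivial character of a finite abelian group. -/
theorem avg_char {A : Type*} [AddCommGroup A] [Fintype A] {m : ℕ} (hm : 3 ≤ m)
    (ψ : AddChar A Circle) (hψ : ∃ x, ψ x ≠ 1) :
    ∑ a ∈ univ.filter (fun a : Fin m → A => a ∈ gens A m), (Dc ψ a)⁻¹ ≤
      58 * ((univ.filter (fun a : Fin m → A => a ∈ gens A m)).card : ℝ) := by
  obtain ⟨n, hn, π, hn2, hsurj, hπ⟩ := exists_pi ψ hψ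
  have h1 := avg_le hn2 hm π hsurj
  have h2 : ∀ a : Fin m → A, Dc ψ a = DD (fun l => π (a l)) := by
    intro a
    unfold Dc DD
    apply Finset.sum_congr rfl
    intro j _
    rw [hπ]
  simpa [h2] using h1

/-- **Finite proposition.** -/
theorem finite_prop {A : Type*} [AddCommGroup A] [Finite A] {m : ℕ} (hm : 3 ≤ m)
    (hgen : (gens A m).Nonempty) {ι : Type*} (F : Finset ι) (ψ : ι → AddChar A Circle)
    (hψ : ∀ i ∈ F, ∃ x, ψ i x ≠ 1) (c : ι → ℝ) (hc : ∀ i, 0 ≤ c i) :
    ∃ a ∈ gens A m, ∑ i ∈ F, c i * (Dc (ψ i) a)⁻¹ ≤ 58 * ∑ i ∈ F, c i := by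
  classical
  have : Fintype A := Fintype.ofFinite A
  set S := univ.filter (fun a : Fin m → A => a ∈ gens A m) with hS
  have hSne : S.Nonempty := by
    obtain ⟨a, ha⟩ := hgen
    exact ⟨a, by rw [hS, Finset.mem_filter]; exact ⟨Finset.mem_univ _, ha⟩⟩
  have h1 : ∑ a ∈ S, ∑ i ∈ F, c i * (Dc (ψ i) a)⁻¹ ≤ ∑ a ∈ S, 58 * ∑ i ∈ F, c i := by
    rw [Finset.sum_comm, Finset.sum_const, nsmul_eq_mul]
    calc ∑ i ∈ F, ∑ a ∈ S, c i * (Dc (ψ i) a)⁻¹ = ∑ i ∈ F, c i * ∑ a ∈ S, (Dc (ψ i) a)⁻¹ := by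
          apply Finset.sum_congr rfl
          intro i _
          rw [Finset.mul_sum]
      _ ≤ ∑ i ∈ F, c i * (58 * (S.card : ℝ)) := by
          apply Finset.sum_le_sum
          intro i hi
          exact mul_le_mul_of_nonneg_left (avg_char hm (ψ i) (hψ i hi)) (hc i)
      _ = (S.card : ℝ) * (58 * ∑ i ∈ F, c i) := by
          rw [← Finset.sum_mul]; ring
  obtain ⟨a, ha, hle⟩ := Finset.exists_le_of_sum_le hSne h1
  rw [hS, Finset.mem_filter] at ha
  exact ⟨a, ha.2, hle⟩

end Pool.Agent.H44.TILF
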