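import Pool.Agent.H44.TILF.Prof

set_option autoImplicit false
set_option linter.unusedSectionVars false
set_option linter.overlappingInstances false

namespace Pool.Agent.H44.TILF

open MeasureTheory Set Submodule
open scoped InnerProductSpace ComplexConjugate

section

variable {G : Type*} [AddCommGroup G] [TopologicalSpace G] [IsTopologicalAddGroup G]
  [CompactSpace G] [T2Space G] [TotallyDisconnectedSpace G]

/-- product of characters -/
noncomputable def chmul (ψ χ : Ch G) : Ch G := ⟨ψ.1 * χ.1, by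
  have : (⇑(ψ.1 * χ.1) : G → Circle) = fun x => ψ.1 x * χ.1 x := rfl
  rw [this]
  exact ψ.2.mul χ.2⟩

/-- inverse of a character -/
noncomputable def chinv (ψ : Ch G) : Ch G := ⟨ψ.1⁻¹, by
  have : (⇑(ψ.1⁻¹) : G → Circle) = fun x => (ψ.1 x)⁻¹ := by
    funext x
    exact AddChar.inv_apply' ψ.1 x
  rw [this]
  exact ψ.2.inv⟩

/-- trivial character -/
noncomputable def ch1 : Ch G := ⟨1, by
  have : (⇑(1 : AddChar G Circle) : G → Circle) = fun _ => 1 := rfl
  rw [this]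
  exact continuous_const⟩

/-- power of a character -/
noncomputable def chpow (ψ : Ch G) (k : ℕ) : Ch G := ⟨ψ.1 ^ k, by
  have : (⇑(ψ.1 ^ k) : G → Circle) = fun x => (ψ.1 x) ^ k := rfl
  rw [this]
  exact ψ.2.pow k⟩

/-- the character as a continuous complex function -/
noncomputable def chc (ψ : Ch G) : C(G, ℂ) := ⟨fun x => ((ψ.1 x : Circle) : ℂ), circle_cont.comp ψ.2⟩

lemma chc_apply (ψ : Ch G) (x : G) : chc ψ x = ((ψ.1 x : Circle) : ℂ) := rfl

lemma chc_mul (ψ χ : Ch G) : chc (chmul ψ χ) = chc ψ * chc χ := by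
  ext x
  rw [ContinuousMap.mul_apply, chc_apply, chc_apply, chc_apply, ← Circle.coe_mul]
  rfl

lemma chc_inv (ψ : Ch G) (x : G) : chc (chinv ψ) x = conj (chc ψ x) := by
  rw [chc_apply, chc_apply, ← Circle.coe_inv_eq_conj, ← AddChar.inv_apply']
  rfl

lemma chc_one : chc (ch1 : Ch G) = 1 := by
  ext x
  rfl

/-- The star subalgebra generated by the characters. -/
noncomputable def chSub : StarSubalgebra ℂ C(G, ℂ) where
  toSubalgebra := Algebra.adjoin ℂ (range (chc (G := G)))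
  star_mem' := by
    change Algebra.adjoin ℂ (range (chc (G := G))) ≤ star (Algebra.adjoin ℂ (range (chc (G := G))))
    refine Algebra.adjoin_le ?_
    rintro - ⟨ψ, rfl⟩
    exact Algebra.subset_adjoin ⟨chinv ψ, ContinuousMap.ext fun x => chc_inv ψ x⟩

lemma chSub_coe :
    Subalgebra.toSubmodule (chSub (G := G)).toSubalgebra = span ℂ (range (chc (G := G))) := by
  apply Algebra.adjoin_eq_span_of_subset
  refine Subset.trans ?_ Submodule.subset_span
  intro x hx
  refine Submonoid.closure_induction (fun _ => id) ⟨ch1, ?_⟩ ?_ hx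
  · exact chc_one
  · rintro - - - - ⟨ψ, rfl⟩ ⟨χ, rfl⟩
    exact ⟨chmul ψ χ, chc_mul ψ χ⟩

lemma chSub_separatesPoints : (chSub (G := G)).SeparatesPoints := by
  intro x y hxy
  obtain ⟨ψ, hψ⟩ := exists_char_ne x y hxy
  refine ⟨_, ⟨chc ψ, Algebra.subset_adjoin ⟨ψ, rfl⟩, rfl⟩, ?_⟩
  intro h
  exact hψ (Circle.ext h)

lemma span_chc_closure_eq_top : (span ℂ (range (chc (G := G)))).topologicalClosure = ⊤ := by
  rw [← chSub_coe]
  exact congr_arg (Subalgebra.toSubmodule <| StarSubalgebra.toSubalgebra ·)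
    (ContinuousMap.starSubalgebra_topologicalClosure_eq_top_of_separatesPoints chSub
      chSub_separatesPoints)

end

section

variable {G : Type*} [AddCommGroup G] [TopologicalSpace G] [IsTopologicalAddGroup G]
  [CompactSpace G] [T2Space G] [TotallyDisconnectedSpace G]
  [MeasurableSpace G] [BorelSpace G] (μ : Measure G) [μ.IsAddHaarMeasure] [μ.Regular]
  [IsProbabilityMeasure μ]

/-- the character as an element of `L²` -/
noncomputable def chL (ψ : Ch G) : Lp ℂ 2 μ := ContinuousMap.toLp (E := ℂ) 2 μ ℂ (chc ψ)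

lemma coeFn_chL (ψ : Ch G) : chL μ ψ =ᵐ[μ] fun x => ((ψ.1 x : Circle) : ℂ) :=
  ContinuousMap.coeFn_toLp μ (chc ψ)

lemma integral_char (η : AddChar G Circle) (hη : ∃ a, η a ≠ 1) :
    ∫ x, ((η x : Circle) : ℂ) ∂μ = 0 := by
  obtain ⟨a, ha⟩ := hη
  have h1 := integral_add_right_eq_self (μ := μ) (fun x => ((η x : Circle) : ℂ)) a
  have h2 : ∫ x, ((η (x + a) : Circle) : ℂ) ∂μ = (∫ x, ((η x : Circle) : ℂ) ∂μ) * ((η a : Circle) : ℂ) := by
    rw [← integral_mul_const]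
    congr 1
    funext x
    rw [AddChar.map_add_eq_mul, Circle.coe_mul]
  rw [h2] at h1
  have h3 : (∫ x, ((η x : Circle) : ℂ) ∂μ) * (((η a : Circle) : ℂ) - 1) = 0 := by
    linear_combination h1
  rcases mul_eq_zero.mp h3 with h | h
  · exact h
  · exfalso
    apply ha
    apply Circle.ext
    rw [Circle.coe_one]
    exact sub_eq_zero.mp h

lemma orthonormal_chL : Orthonormal ℂ (chL μ) := by
  classical
  rw [orthonormal_iff_ite]
  intro ψ χ
  unfold chL
  rw [ContinuousMap.inner_toLp μ (chc ψ) (chc χ)]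
  split_ifs with h
  · subst h
    have : ∀ x : G, (chc ψ) x * conj ((chc ψ) x) = 1 := by
      intro x
      rw [Complex.mul_conj, chc_apply]
      simp
    simp [this]
  · have h1 : ∀ x : G, (chc χ) x * conj ((chc ψ) x) = (((χ.1 * ψ.1⁻¹ : AddChar G Circle) x : Circle) : ℂ) := by
      intro x
      rw [AddChar.mul_apply, Circle.coe_mul, AddChar.inv_apply', Circle.coe_inv_eq_conj]
      rfl
    simp_rw [h1]
    apply integral_char
    by_contra hcon
    push Not at hcon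
    apply h
    apply Subtype.ext
    ext x
    have h2 := hcon x
    rw [AddChar.mul_apply, AddChar.inv_apply', mul_inv_eq_one] at h2
    rw [h2]

lemma span_chL_closure_eq_top : (span ℂ (range (chL μ))).topologicalClosure = ⊤ := by
  have h1 := (ContinuousMap.toLp_denseRange ℂ μ ℂ (p := 2) (by norm_num)).topologicalClosure_map_submodule
      (span_chc_closure_eq_top (G := G))
  rw [map_span] at h1
  have h2 : (ContinuousMap.toLp (E := ℂ) 2 μ ℂ : C(G, ℂ) →L[ℂ] Lp ℂ 2 μ) '' (range (chc (G := G))) =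
      range (chL μ) := by
    rw [← range_comp]
    rfl
  rw [← h2]
  exact h1

/-- The Fourier basis. -/
noncomputable def bas : HilbertBasis (Ch G) ℂ (Lp ℂ 2 μ) :=
  HilbertBasis.mk (orthonormal_chL μ) (by rw [span_chL_closure_eq_top μ])

lemma bas_apply (ψ : Ch G) : bas μ ψ = chL μ ψ := by
  simp [bas]

/-- Fourier coefficients -/
noncomputable def fc (f : Lp ℂ 2 μ) (ψ : Ch G) : ℂ := (bas μ).repr f ψ

lemma fc_eq_inner (f : Lp ℂ 2 μ) (ψ : Ch G) : fc μ f ψ = ⟪chL μ ψ, f⟫_ℂ := by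
  unfold fc
  rw [HilbertBasis.repr_apply_apply, bas_apply]

lemma fc_add (f g : Lp ℂ 2 μ) (ψ : Ch G) : fc μ (f + g) ψ = fc μ f ψ + fc μ g ψ := by
  rw [fc_eq_inner, fc_eq_inner, fc_eq_inner, inner_add_right]

lemma fc_sub (f g : Lp ℂ 2 μ) (ψ : Ch G) : fc μ (f - g) ψ = fc μ f ψ - fc μ g ψ := by
  rw [fc_eq_inner, fc_eq_inner, fc_eq_inner, inner_sub_right]

lemma fc_sum {ι : Type*} (s : Finset ι) (f : ι → Lp ℂ 2 μ) (ψ : Ch G) :
    fc μ (∑ i ∈ s, f i) ψ = ∑ i ∈ s, fc μ (f i) ψ := by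
  rw [fc_eq_inner, inner_sum]
  exact Finset.sum_congr rfl (fun i _ => (fc_eq_inner μ (f i) ψ).symm)

lemma fc_ext {f g : Lp ℂ 2 μ} (h : ∀ ψ, fc μ f ψ = fc μ g ψ) : f = g := by
  apply (bas μ).repr.injective
  apply Subtype.ext
  funext ψ
  exact h ψ

lemma fc_summable (f : Lp ℂ 2 μ) : Summable (fun ψ => ‖fc μ f ψ‖ ^ 2) := by
  have h1 := lp.memℓp ((bas μ).repr f)
  have h2 := (memℓp_gen_iff (p := 2) (by norm_num)).mp h1
  have h3 : Summable (fun ψ => ‖((bas μ).repr f : Ch G → ℂ) ψ‖ ^ 2) := by simpa using h2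
  exact h3

lemma fc_norm_sq (f : Lp ℂ 2 μ) : ∑' ψ, ‖fc μ f ψ‖ ^ 2 = ‖f‖ ^ 2 := by
  have h1 := lp.norm_rpow_eq_tsum (p := 2) (by norm_num) ((bas μ).repr f)
  rw [LinearIsometryEquiv.norm_map] at h1
  simp only [ENNReal.toReal_ofNat, Real.rpow_ofNat] at h1
  rw [h1]
  rfl

/-- The `L²` function with given square-summable coefficients. -/
lemma exists_fc (c : Ch G → ℂ) (hc : Summable (fun ψ => ‖c ψ‖ ^ 2)) :
    ∃ f : Lp ℂ 2 μ, ∀ ψ, fc μ f ψ = c ψ := by
  have h1 : Memℓp c 2 := by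
    apply (memℓp_gen_iff (p := 2) (by norm_num)).mpr
    simpa using hc
  refine ⟨(bas μ).repr.symm ⟨c, h1⟩, fun ψ => ?_⟩
  unfold fc
  rw [LinearIsometryEquiv.apply_symm_apply]

/-- The mean of `f` is the coefficient of the trivial character. -/
lemma fc_one (f : Lp ℂ 2 μ) : fc μ f ch1 = ∫ x, f x ∂μ := by
  rw [fc_eq_inner, L2.inner_def]
  apply integral_congr_ae
  filter_upwards [coeFn_chL μ (ch1 : Ch G)] with x hx
  rw [hx]
  simp [ch1]

/-- The translation operator `(τ(a) f)(x) = f (x - a)`. -/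
noncomputable def tau (a : G) : Lp ℂ 2 μ →ₗᵢ[ℂ] Lp ℂ 2 μ :=
  Lp.compMeasurePreservingₗᵢ ℂ (fun x => x - a) (measurePreserving_sub_right μ a)

lemma coeFn_tau (a : G) (f : Lp ℂ 2 μ) : tau μ a f =ᵐ[μ] fun x => f (x - a) :=
  Lp.coeFn_compMeasurePreserving f (measurePreserving_sub_right μ a)

lemma tau_chL (a : G) (ψ : Ch G) :
    tau μ a (chL μ ψ) = (((ψ.1 a)⁻¹ : Circle) : ℂ) • chL μ ψ := by
  apply Lp.ext
  have h1 := coeFn_tau μ a (chL μ ψ)
  have h2 := coeFn_chL μ ψ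
  have h3 : (fun x => (chL μ ψ) (x - a)) =ᵐ[μ] fun x => ((ψ.1 (x - a) : Circle) : ℂ) :=
    (measurePreserving_sub_right μ a).quasiMeasurePreserving.ae_eq_comp h2
  filter_upwards [h1, h2, h3, Lp.coeFn_smul (((ψ.1 a)⁻¹ : Circle) : ℂ) (chL μ ψ)] with x e1 e2 e3 e4
  rw [e1, e3, e4, Pi.smul_apply, e2, AddChar.map_sub_eq_div, div_eq_mul_inv, Circle.coe_mul,
    smul_eq_mul, mul_comm]

lemma fc_tau (a : G) (f : Lp ℂ 2 μ) (ψ : Ch G) :
    fc μ (tau μ a f) ψ = conj ((ψ.1 a : Circle) : ℂ) * fc μ f ψ := by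
  rw [fc_eq_inner, fc_eq_inner]
  have h1 : chL μ ψ = ((ψ.1 a : Circle) : ℂ) • tau μ a (chL μ ψ) := by
    rw [tau_chL, smul_smul, ← Circle.coe_mul, mul_inv_cancel, Circle.coe_one, one_smul]
  conv_lhs => rw [h1]
  rw [inner_smul_left, LinearIsometry.inner_map_map]

end

end Pool.Agent.H44.TILF
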