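import Pool.Agent.H44.TILF.Fin4

set_option autoImplicit false

namespace Pool.Agent.H44.TILF

open Finset

lemma zd_neg {n : ℕ} [NeZero n] (x : ZMod n) : zd (-x) = zd x := by
  unfold zd
  rw [ZMod.neg_val]
  have := ZMod.val_lt x
  split_ifs with h
  · rw [h]; simp
  · have h0 : x.val ≠ 0 := fun h1 => h ((ZMod.val_eq_zero _).mp h1)
    omega

lemma zd_sub_le {n : ℕ} [NeZero n] {x y : ZMod n} (h : y.val ≤ x.val) :
    zd (x - y) ≤ x.val - y.val := by
  unfold zd
  rw [ZMod.val_sub h]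
  exact min_le_left _ _

lemma zd_sub_lt {n q : ℕ} [NeZero n] {x y : ZMod n} (h : q * x.val / n = q * y.val / n) :
    zd (x - y) * q < n := by
  have hn : 0 < n := Nat.pos_of_ne_zero (NeZero.ne n)
  have h1 := Nat.div_add_mod (q * x.val) n
  have h2 := Nat.div_add_mod (q * y.val) n
  have h3 := Nat.mod_lt (q * x.val) hn
  have h4 := Nat.mod_lt (q * y.val) hn
  rcases le_total y.val x.val with hle | hle
  · have h5 := zd_sub_le hle
    have h6 : zd (x - y) * q ≤ (x.val - y.val) * q := Nat.mul_le_mul_right q h5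
    have h7 : (x.val - y.val) * q = q * x.val - q * y.val := by
      rw [Nat.sub_mul, mul_comm x.val, mul_comm y.val]
    rw [h7] at h6
    rw [h] at h1
    omega
  · have h5 := zd_sub_le hle
    have h8 : zd (x - y) = zd (y - x) := by
      rw [← zd_neg, neg_sub]
    rw [h8]
    have h6 : zd (y - x) * q ≤ (y.val - x.val) * q := Nat.mul_le_mul_right q h5
    have h7 : (y.val - x.val) * q = q * y.val - q * x.val := by
      rw [Nat.sub_mul, mul_comm x.val, mul_comm y.val]
    rw [h7] at h6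
    rw [h] at h1
    omega

/-- Pigeonhole principle. -/
lemma pigeon {n m q : ℕ} [NeZero n] (hm : m ≤ 2) (hq : 1 ≤ q) (v : Fin m → ZMod n) :
    n ≤ q ^ 2 * (univ.filter (fun k : ZMod n => ∀ j, zd (k * v j) * q < n)).card := by
  classical
  have hn : 0 < n := Nat.pos_of_ne_zero (NeZero.ne n)
  set Z := (univ.filter (fun k : ZMod n => ∀ j, zd (k * v j) * q < n)).card with hZ
  have hbox : ∀ x : ZMod n, q * x.val / n < q := by
    intro x
    rw [Nat.div_lt_iff_lt_mul hn]
    exact Nat.mul_lt_mul_of_pos_left (ZMod.val_lt x) (by omega)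
  let B : ZMod n → (Fin m → Fin q) := fun k j => ⟨q * (k * v j).val / n, hbox _⟩
  have h1 : (univ : Finset (ZMod n)).card =
      ∑ b ∈ (univ : Finset (Fin m → Fin q)), (univ.filter (fun k => B k = b)).card :=
    Finset.card_eq_sum_card_fiberwise (fun _ _ => Finset.mem_coe.mpr (Finset.mem_univ _))
  have h2 : ∀ b ∈ (univ : Finset (Fin m → Fin q)), (univ.filter (fun k => B k = b)).card ≤ Z := by
    intro b _
    rcases (univ.filter (fun k => B k = b)).eq_empty_or_nonempty with he | ⟨k0, hk0⟩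
    · rw [he]; simp
    · rw [Finset.mem_filter] at hk0
      rw [hZ]
      apply Finset.card_le_card_of_injOn (fun k => k - k0)
      · intro k hk
        simp only [Finset.coe_filter, Finset.mem_univ, true_and, Set.mem_ofPred_eq] at hk ⊢
        intro j
        rw [sub_mul]
        apply zd_sub_lt
        have h3 : B k j = B k0 j := by rw [hk, hk0.2]
        have h4 := congrArg Fin.val h3
        exact h4
      · intro k _ k' _ h
        simpa using h
  have h3 := Finset.sum_le_card_nsmul _ _ _ h2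
  rw [← h1] at h3
  simp only [Finset.card_univ, ZMod.card, Fintype.card_fun, Fintype.card_fin, smul_eq_mul] at h3
  calc n ≤ q ^ m * Z := h3
    _ ≤ q ^ 2 * Z := Nat.mul_le_mul_right Z (Nat.pow_le_pow_right hq hm)

lemma chord_upper {n : ℕ} [NeZero n] (x : ZMod n) :
    ‖1 - ((ZMod.toCircle x : Circle) : ℂ)‖ ≤ 2 * Real.pi * (zd x : ℝ) / n := by
  have hn : (0 : ℝ) < n := by exact_mod_cast Nat.pos_of_ne_zero (NeZero.ne n)
  have hlt := ZMod.val_lt x
  have h1 : ‖1 - ((ZMod.toCircle x : Circle) : ℂ)‖ = 2 * |Real.sin (Real.pi * (x.val / n))| := by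
    rw [ZMod.toCircle_eq_circleExp, Circle.coe_exp, norm_sub_rev]
    have h2 := Complex.norm_exp_I_mul_ofReal_sub_one (2 * Real.pi * (x.val / n))
    rw [mul_comm Complex.I] at h2
    rw [h2, Real.norm_eq_abs, abs_mul, abs_of_pos (by norm_num : (0 : ℝ) < 2)]
    congr 3
    ring
  rw [h1]
  have hsin : |Real.sin (Real.pi * (x.val / n))| ≤ Real.pi * (zd x : ℝ) / n := by
    unfold zd
    rcases le_total x.val (n - x.val) with h | h
    · rw [min_eq_left h]
      have h2 := Real.abs_sin_le_abs (x := Real.pi * (x.val / n))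
      rw [abs_of_nonneg (a := Real.pi * ((x.val : ℝ) / n)) (by positivity)] at h2
      calc |Real.sin (Real.pi * (x.val / n))| ≤ Real.pi * (x.val / n) := h2
        _ = Real.pi * (x.val : ℝ) / n := by ring
    · rw [min_eq_right h]
      have hcast : ((n - x.val : ℕ) : ℝ) = (n : ℝ) - x.val := by
        rw [Nat.cast_sub hlt.le]
      have hltr : (x.val : ℝ) < n := by exact_mod_cast hlt
      have hs : Real.sin (Real.pi * ((x.val : ℝ) / n)) =
          Real.sin (Real.pi * (((n : ℝ) - x.val) / n)) := by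
        rw [← Real.sin_pi_sub]
        congr 1
        field_simp
      rw [hs, hcast]
      have h2 := Real.abs_sin_le_abs (x := Real.pi * (((n : ℝ) - x.val) / n))
      have h3 : 0 ≤ Real.pi * (((n : ℝ) - x.val) / n) := by
        apply mul_nonneg Real.pi_pos.le
        apply div_nonneg (by linarith) hn.le
      rw [abs_of_nonneg h3] at h2
      calc |Real.sin (Real.pi * (((n : ℝ) - x.val) / n))| ≤ Real.pi * (((n : ℝ) - x.val) / n) := h2
        _ = Real.pi * ((n : ℝ) - x.val) / n := by ring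
  calc 2 * |Real.sin (Real.pi * (x.val / n))| ≤ 2 * (Real.pi * (zd x : ℝ) / n) := by linarith
    _ = 2 * Real.pi * (zd x : ℝ) / n := by ring

lemma sum_odd (P : ℕ) : ∑ q ∈ Finset.Icc 1 P, (2 * (q : ℝ) - 1) = (P : ℝ) ^ 2 := by
  induction P with
  | zero => simp
  | succ P ih =>
    rw [Finset.sum_Icc_succ_top (by omega), ih]
    push_cast
    ring

lemma layer {n M : ℕ} (hM : 1 ≤ M) (Q : ℕ) :
    ∑ q ∈ (Finset.Icc 1 Q).filter (fun q => M * q < n), (2 * (q : ℝ) - 1) ≤ ((n : ℝ) / M) ^ 2 := by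
  have hM0 : (0 : ℝ) < M := by exact_mod_cast hM
  have h1 : ∑ q ∈ (Finset.Icc 1 Q).filter (fun q => M * q < n), (2 * (q : ℝ) - 1) ≤
      ∑ q ∈ Finset.Icc 1 (n / M), (2 * (q : ℝ) - 1) := by
    apply Finset.sum_le_sum_of_subset_of_nonneg
    · intro q hq
      rw [Finset.mem_filter, Finset.mem_Icc] at hq
      rw [Finset.mem_Icc]
      refine ⟨hq.1.1, ?_⟩
      rw [Nat.le_div_iff_mul_le (by omega)]
      have := hq.2
      rw [mul_comm]
      omega
    · intro q hq _
      rw [Finset.mem_Icc] at hq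
      have : (1 : ℝ) ≤ q := by exact_mod_cast hq.1
      linarith
  rw [sum_odd] at h1
  refine h1.trans ?_
  apply pow_le_pow_left₀ (by positivity)
  exact Nat.cast_div_le

/-- **Lower bound for two translations.** -/
theorem lower_sum {n m : ℕ} [NeZero n] (hm : m ≤ 2) (v : Fin m → ZMod n) (Q : ℕ) (hQ : Q ^ 2 ≤ n)
    (hpos : ∀ k : ZMod n, k ≠ 0 → DD (fun j => k * v j) ≠ 0) :
    (n : ℝ) * (∑ q ∈ Finset.Icc 1 Q, 1 / (q : ℝ) - 1) / (8 * Real.pi ^ 2) ≤
      ∑ k ∈ univ.filter (fun k : ZMod n => k ≠ 0), (DD (fun j => k * v j))⁻¹ := by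
  classical
  have hn : (0 : ℝ) < n := by exact_mod_cast Nat.pos_of_ne_zero (NeZero.ne n)
  let M : ZMod n → ℕ := fun k => univ.sup (fun j => zd (k * v j))
  have hMle : ∀ k j, zd (k * v j) ≤ M k := fun k j =>
    Finset.le_sup (f := fun j => zd (k * v j)) (Finset.mem_univ j)
  have hM1 : ∀ k : ZMod n, k ≠ 0 → 1 ≤ M k := by
    intro k hk
    by_contra hlt
    have hM0 : M k = 0 := by omega
    apply hpos k hk
    unfold DD
    apply Finset.sum_eq_zero
    intro j _
    have h1 : zd (k * v j) = 0 := by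
      have := hMle k j
      omega
    have h2 : k * v j = 0 := by
      by_contra hne
      have := zd_pos hne
      omega
    change ‖1 - ((ZMod.toCircle (k * v j) : Circle) : ℂ)‖ ^ 2 = 0
    rw [h2]
    simp
  have hD : ∀ k : ZMod n, k ≠ 0 → ((n : ℝ) / M k) ^ 2 / (8 * Real.pi ^ 2) ≤ (DD (fun j => k * v j))⁻¹ := by
    intro k hk
    have hMk : (0 : ℝ) < M k := by exact_mod_cast (hM1 k hk)
    have hD0 : 0 < DD (fun j => k * v j) := by
      apply lt_of_le_of_ne _ (Ne.symm (hpos k hk))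
      unfold DD; positivity
    have h1 : DD (fun j => k * v j) ≤ 8 * Real.pi ^ 2 * (M k : ℝ) ^ 2 / (n : ℝ) ^ 2 := by
      unfold DD
      have h2 : ∀ j ∈ (univ : Finset (Fin m)), ‖1 - ((ZMod.toCircle (k * v j) : Circle) : ℂ)‖ ^ 2 ≤
          (2 * Real.pi * (M k : ℝ) / n) ^ 2 := by
        intro j _
        apply pow_le_pow_left₀ (norm_nonneg _)
        refine (chord_upper (k * v j)).trans ?_
        apply div_le_div_of_nonneg_right _ hn.le
        apply mul_le_mul_of_nonneg_left _ (by positivity)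
        exact_mod_cast hMle k j
      have h3 := Finset.sum_le_card_nsmul _ _ _ h2
      rw [Finset.card_univ, Fintype.card_fin, nsmul_eq_mul] at h3
      have h4 : (m : ℝ) ≤ 2 := by exact_mod_cast hm
      calc ∑ j, ‖1 - ((ZMod.toCircle (k * v j) : Circle) : ℂ)‖ ^ 2
          ≤ (m : ℝ) * (2 * Real.pi * (M k : ℝ) / n) ^ 2 := h3
        _ ≤ 2 * (2 * Real.pi * (M k : ℝ) / n) ^ 2 :=
            mul_le_mul_of_nonneg_right h4 (by positivity)
        _ = 8 * Real.pi ^ 2 * (M k : ℝ) ^ 2 / (n : ℝ) ^ 2 := by ring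
    have h5 : (8 * Real.pi ^ 2 * (M k : ℝ) ^ 2 / (n : ℝ) ^ 2)⁻¹ ≤ (DD (fun j => k * v j))⁻¹ :=
      inv_anti₀ hD0 h1
    have h6 : ((n : ℝ) / M k) ^ 2 / (8 * Real.pi ^ 2) =
        (8 * Real.pi ^ 2 * (M k : ℝ) ^ 2 / (n : ℝ) ^ 2)⁻¹ := by
      field_simp
    rw [h6]
    exact h5
  have hstep : (n : ℝ) * (∑ q ∈ Finset.Icc 1 Q, 1 / (q : ℝ) - 1) ≤
      ∑ k ∈ univ.filter (fun k : ZMod n => k ≠ 0), ((n : ℝ) / M k) ^ 2 := by
    have h1 : ∑ k ∈ univ.filter (fun k : ZMod n => k ≠ 0),
        ∑ q ∈ (Finset.Icc 1 Q).filter (fun q => M k * q < n), (2 * (q : ℝ) - 1) ≤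
        ∑ k ∈ univ.filter (fun k : ZMod n => k ≠ 0), ((n : ℝ) / M k) ^ 2 := by
      apply Finset.sum_le_sum
      intro k hk
      rw [Finset.mem_filter] at hk
      exact layer (hM1 k hk.2) Q
    refine le_trans ?_ h1
    have h2 : ∑ k ∈ univ.filter (fun k : ZMod n => k ≠ 0),
        ∑ q ∈ (Finset.Icc 1 Q).filter (fun q => M k * q < n), (2 * (q : ℝ) - 1) =
        ∑ q ∈ Finset.Icc 1 Q, (2 * (q : ℝ) - 1) *
          ((univ.filter (fun k : ZMod n => k ≠ 0 ∧ M k * q < n)).card : ℝ) := by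
      simp_rw [Finset.sum_filter]
      rw [← Finset.sum_filter, Finset.sum_comm]
      apply Finset.sum_congr rfl
      intro q _
      rw [← Finset.sum_filter, Finset.filter_filter, Finset.sum_const, nsmul_eq_mul, mul_comm]
    rw [h2]
    have h3 : ∀ q ∈ Finset.Icc 1 Q, (n : ℝ) * (1 / (q : ℝ)) - (2 * (q : ℝ) - 1) ≤
        (2 * (q : ℝ) - 1) * ((univ.filter (fun k : ZMod n => k ≠ 0 ∧ M k * q < n)).card : ℝ) := by
      intro q hq
      rw [Finset.mem_Icc] at hq
      have hq1 : (1 : ℝ) ≤ q := by exact_mod_cast hq.1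
      have h4 := pigeon hm hq.1 v
      have h5 : (univ.filter (fun k : ZMod n => ∀ j, zd (k * v j) * q < n)).card ≤
          (univ.filter (fun k : ZMod n => k ≠ 0 ∧ M k * q < n)).card + 1 := by
        have h6 : univ.filter (fun k : ZMod n => ∀ j, zd (k * v j) * q < n) ⊆
            insert 0 (univ.filter (fun k : ZMod n => k ≠ 0 ∧ M k * q < n)) := by
          intro k hk
          rw [Finset.mem_filter] at hk
          rw [Finset.mem_insert]
          by_cases hk0 : k = 0
          · exact Or.inl hk0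
          · right
            rw [Finset.mem_filter]
            refine ⟨Finset.mem_univ _, hk0, ?_⟩
            have hne : (univ : Finset (Fin m)).Nonempty := by
              by_contra hem
              rw [Finset.not_nonempty_iff_eq_empty] at hem
              have h7 := hM1 k hk0
              simp only [M, hem, Finset.sup_empty] at h7
              exact absurd h7 (by simp)
            obtain ⟨j, _, hj⟩ := Finset.exists_mem_eq_sup univ hne (fun j => zd (k * v j))
            have h8 : M k = zd (k * v j) := hj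
            rw [h8]
            exact hk.2 j
        exact (Finset.card_le_card h6).trans (Finset.card_insert_le _ _)
      set c := ((univ.filter (fun k : ZMod n => k ≠ 0 ∧ M k * q < n)).card : ℝ) with hc
      have h6 : (n : ℝ) ≤ (q : ℝ) ^ 2 * (c + 1) := by
        have h7 : n ≤ q ^ 2 * ((univ.filter (fun k : ZMod n => k ≠ 0 ∧ M k * q < n)).card + 1) :=
          h4.trans (Nat.mul_le_mul_left _ h5)
        rw [hc]
        exact_mod_cast h7
      have h8 : (n : ℝ) / (q : ℝ) ^ 2 ≤ c + 1 := by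
        rw [div_le_iff₀ (by positivity)]
        linarith
      have h9 : (n : ℝ) * (1 / (q : ℝ)) ≤ (2 * (q : ℝ) - 1) * ((n : ℝ) / (q : ℝ) ^ 2) := by
        have h10 : (n : ℝ) * (1 / (q : ℝ)) = (q : ℝ) * ((n : ℝ) / (q : ℝ) ^ 2) := by
          field_simp
        rw [h10]
        apply mul_le_mul_of_nonneg_right _ (by positivity)
        linarith
      have h11 : (2 * (q : ℝ) - 1) * ((n : ℝ) / (q : ℝ) ^ 2) ≤ (2 * (q : ℝ) - 1) * (c + 1) :=
        mul_le_mul_of_nonneg_left h8 (by linarith)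
      nlinarith
    have h4 := Finset.sum_le_sum h3
    rw [Finset.sum_sub_distrib, ← Finset.mul_sum, sum_odd] at h4
    refine le_trans ?_ h4
    have h5 : (Q : ℝ) ^ 2 ≤ n := by exact_mod_cast hQ
    nlinarith
  calc (n : ℝ) * (∑ q ∈ Finset.Icc 1 Q, 1 / (q : ℝ) - 1) / (8 * Real.pi ^ 2)
      ≤ (∑ k ∈ univ.filter (fun k : ZMod n => k ≠ 0), ((n : ℝ) / M k) ^ 2) / (8 * Real.pi ^ 2) := by
        apply div_le_div_of_nonneg_right hstep (by positivity)
    _ = ∑ k ∈ univ.filter (fun k : ZMod n => k ≠ 0), ((n : ℝ) / M k) ^ 2 / (8 * Real.pi ^ 2) := by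
        rw [Finset.sum_div]
    _ ≤ ∑ k ∈ univ.filter (fun k : ZMod n => k ≠ 0), (DD (fun j => k * v j))⁻¹ := by
        apply Finset.sum_le_sum
        intro k hk
        rw [Finset.mem_filter] at hk
        exact hD k hk.2

end Pool.Agent.H44.TILF
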