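import Pool.Agent.H44.TILF.Four

set_option autoImplicit false
set_option linter.unusedSectionVars false
set_option linter.overlappingInstances false

namespace Pool.Agent.H44.TILF

open MeasureTheory Set Submodule
open scoped InnerProductSpace ComplexConjugate

section

variable {G : Type*} [AddCommGroup G] [TopologicalSpace G] [IsTopologicalAddGroup G]
  [CompactSpace G] [T2Space G] [TotallyDisconnectedSpace G]

lemma continuous_Dc {m : ℕ} (ψ : Ch G) : Continuous (fun a : Fin m → G => Dc ψ.1 a) := by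
  unfold Dc
  apply continuous_finsetSum
  intro j _
  have h1 : Continuous (fun a : Fin m → G => ((ψ.1 (a j) : Circle) : ℂ)) :=
    circle_cont.comp (ψ.2.comp (continuous_apply j))
  exact ((continuous_const.sub h1).norm).pow 2

/-- The set of tuples good for a finite set of characters. -/
def KF {m : ℕ} (c : Ch G → ℝ) (B : ℝ) (F : Finset (Ch G)) : Set (Fin m → G) :=
  {a | ∑ ψ ∈ F, ENNReal.ofReal (c ψ) * (ENNReal.ofReal (Dc ψ.1 a))⁻¹ ≤ ENNReal.ofReal B}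

lemma isClosed_KF {m : ℕ} (c : Ch G → ℝ) (B : ℝ) (F : Finset (Ch G)) :
    IsClosed (KF (m := m) c B F) := by
  apply isClosed_le _ continuous_const
  apply continuous_finsetSum
  intro ψ _
  apply (ENNReal.continuous_const_mul ENNReal.ofReal_ne_top).comp
  exact continuous_inv.comp (ENNReal.continuous_ofReal.comp (continuous_Dc ψ))

lemma KF_anti {m : ℕ} (c : Ch G → ℝ) (B : ℝ) {F F' : Finset (Ch G)} (h : F ⊆ F') :
    KF (m := m) c B F' ⊆ KF c B F := by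
  intro a ha
  have ha' : ∑ ψ ∈ F', ENNReal.ofReal (c ψ) * (ENNReal.ofReal (Dc ψ.1 a))⁻¹ ≤
      ENNReal.ofReal B := ha
  have h1 : ∑ ψ ∈ F, ENNReal.ofReal (c ψ) * (ENNReal.ofReal (Dc ψ.1 a))⁻¹ ≤
      ENNReal.ofReal B := le_trans (Finset.sum_le_sum_of_subset h) ha'
  exact h1

lemma nonempty_KF {m : ℕ} (hm : 3 ≤ m) {a₀ : Fin m → G}
    (ha₀ : Dense ((AddSubgroup.closure (Set.range a₀) : AddSubgroup G) : Set G))
    (c : Ch G → ℝ) (hc : ∀ ψ, 0 ≤ c ψ) (hc1 : ∀ ψ, (∀ x, ψ.1 x = 1) → c ψ = 0)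
    (hs : Summable c) (F : Finset (Ch G)) :
    (KF (m := m) c (58 * ∑' ψ, c ψ) F).Nonempty := by
  classical
  obtain ⟨U, hU⟩ := exists_open_kers F
  let K : AddSubgroup G := U.toAddSubgroup
  have hKopen : IsOpen (K : Set G) := U.isOpen
  have hfin : Finite (G ⧸ K) := K.quotient_finite_of_isOpen hKopen
  have hgen : (gens (G ⧸ K) m).Nonempty := ⟨_, gens_quot K hKopen ha₀⟩
  let F' : Finset (Ch G) := F.filter (fun ψ => ∃ x, ψ.1 x ≠ 1)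
  have hF' : ∀ ψ ∈ F', ∀ x ∈ K, ψ.1 x = 1 := by
    intro ψ hψ x hx
    exact hU ψ (Finset.mem_filter.mp hψ).1 x hx
  let Ψ : Ch G → AddChar (G ⧸ K) Circle := fun ψ =>
    if h : ∀ x ∈ K, ψ.1 x = 1 then descend K ψ.1 h else 1
  have hΨ : ∀ ψ ∈ F', ∀ x : G, Ψ ψ (QuotientAddGroup.mk x) = ψ.1 x := by
    intro ψ hψ x
    simp only [Ψ]
    rw [dif_pos (hF' ψ hψ)]
    rfl
  have hne : ∀ ψ ∈ F', ∃ y, Ψ ψ y ≠ 1 := by
    intro ψ hψ
    obtain ⟨x, hx⟩ := (Finset.mem_filter.mp hψ).2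
    exact ⟨QuotientAddGroup.mk x, by rw [hΨ ψ hψ]; exact hx⟩
  obtain ⟨b, hb, hle⟩ := finite_prop hm hgen F' Ψ hne c hc
  choose a ha using fun j => QuotientAddGroup.mk_surjective (b j)
  have hD : ∀ ψ ∈ F', Dc (Ψ ψ) b = Dc ψ.1 a := by
    intro ψ hψ
    unfold Dc
    apply Finset.sum_congr rfl
    intro j _
    rw [← ha j, hΨ ψ hψ]
  have hDpos : ∀ ψ ∈ F', 0 < Dc ψ.1 a := by
    intro ψ hψ
    rw [← hD ψ hψ]
    exact Dc_pos_of_gens (hne ψ hψ) hb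
  refine ⟨a, ?_⟩
  simp only [KF, Set.mem_ofPred_eq]
  have h1 : ∑ ψ ∈ F, ENNReal.ofReal (c ψ) * (ENNReal.ofReal (Dc ψ.1 a))⁻¹ =
      ∑ ψ ∈ F', ENNReal.ofReal (c ψ) * (ENNReal.ofReal (Dc ψ.1 a))⁻¹ := by
    symm
    apply Finset.sum_subset (Finset.filter_subset _ _)
    intro ψ hψ hψ'
    have h2 : ∀ x, ψ.1 x = 1 := by
      by_contra hcon
      push Not at hcon
      exact hψ' (Finset.mem_filter.mpr ⟨hψ, hcon⟩)
    rw [hc1 ψ h2]
    simp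
  rw [h1]
  have h2 : ∑ ψ ∈ F', ENNReal.ofReal (c ψ) * (ENNReal.ofReal (Dc ψ.1 a))⁻¹ =
      ENNReal.ofReal (∑ ψ ∈ F', c ψ * (Dc (Ψ ψ) b)⁻¹) := by
    rw [ENNReal.ofReal_sum_of_nonneg]
    · apply Finset.sum_congr rfl
      intro ψ hψ
      rw [hD ψ hψ, ENNReal.ofReal_mul (hc ψ), ENNReal.ofReal_inv_of_pos (hDpos ψ hψ)]
    · intro ψ _
      exact mul_nonneg (hc ψ) (inv_nonneg.mpr (Dc_nonneg _ _))
  rw [h2]
  apply ENNReal.ofReal_le_ofReal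
  refine hle.trans ?_
  apply mul_le_mul_of_nonneg_left _ (by norm_num)
  exact hs.sum_le_tsum F' (fun ψ _ => hc ψ)

theorem exists_tuple {m : ℕ} (hm : 3 ≤ m) {a₀ : Fin m → G}
    (ha₀ : Dense ((AddSubgroup.closure (Set.range a₀) : AddSubgroup G) : Set G))
    (c : Ch G → ℝ) (hc : ∀ ψ, 0 ≤ c ψ) (hc1 : ∀ ψ, (∀ x, ψ.1 x = 1) → c ψ = 0)
    (hs : Summable c) :
    ∃ a : Fin m → G, (∀ ψ, Dc ψ.1 a = 0 → c ψ = 0) ∧ Summable (fun ψ => c ψ / Dc ψ.1 a) ∧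
      ∑' ψ, c ψ / Dc ψ.1 a ≤ 58 * ∑' ψ, c ψ := by
  classical
  set B : ℝ := 58 * ∑' ψ, c ψ with hB
  have hB0 : 0 ≤ B := by
    rw [hB]
    exact mul_nonneg (by norm_num) (tsum_nonneg hc)
  have hne : (⋂ F : Finset (Ch G), KF (m := m) c B F).Nonempty := by
    apply IsCompact.nonempty_iInter_of_directed_nonempty_isCompact_isClosed
    · intro F F'
      exact ⟨F ∪ F', KF_anti c B Finset.subset_union_left, KF_anti c B Finset.subset_union_right⟩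
    · intro F
      exact nonempty_KF hm ha₀ c hc hc1 hs F
    · intro F
      exact (isClosed_KF c B F).isCompact
    · intro F
      exact isClosed_KF c B F
  obtain ⟨a, ha⟩ := hne
  have haF : ∀ F : Finset (Ch G),
      ∑ ψ ∈ F, ENNReal.ofReal (c ψ) * (ENNReal.ofReal (Dc ψ.1 a))⁻¹ ≤ ENNReal.ofReal B := by
    intro F
    exact Set.mem_iInter.mp ha F
  have h0 : ∀ ψ, Dc ψ.1 a = 0 → c ψ = 0 := by
    intro ψ hψ
    by_contra hcne
    have h1 := haF {ψ}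
    rw [Finset.sum_singleton, hψ] at h1
    have hcpos : 0 < c ψ := lt_of_le_of_ne (hc ψ) (Ne.symm hcne)
    have h2 : ENNReal.ofReal (c ψ) ≠ 0 := by
      rw [Ne, ENNReal.ofReal_eq_zero, not_le]
      exact hcpos
    rw [ENNReal.ofReal_zero, ENNReal.inv_zero, ENNReal.mul_top h2] at h1
    exact absurd h1 (by simp)
  have hreal : ∀ F : Finset (Ch G), ∑ ψ ∈ F, c ψ / Dc ψ.1 a ≤ B := by
    intro F
    have h1 := haF F
    have h2 : ∑ ψ ∈ F, ENNReal.ofReal (c ψ) * (ENNReal.ofReal (Dc ψ.1 a))⁻¹ =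
        ENNReal.ofReal (∑ ψ ∈ F, c ψ / Dc ψ.1 a) := by
      rw [ENNReal.ofReal_sum_of_nonneg]
      · apply Finset.sum_congr rfl
        intro ψ _
        rcases (Dc_nonneg ψ.1 a).lt_or_eq with h | h
        · rw [div_eq_mul_inv, ENNReal.ofReal_mul (hc ψ), ENNReal.ofReal_inv_of_pos h]
        · rw [h0 ψ h.symm]
          simp
      · intro ψ _
        exact div_nonneg (hc ψ) (Dc_nonneg _ _)
    rw [h2] at h1
    exact (ENNReal.ofReal_le_ofReal_iff hB0).mp h1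
  have hsum : Summable (fun ψ => c ψ / Dc ψ.1 a) :=
    summable_of_sum_le (fun ψ => div_nonneg (hc ψ) (Dc_nonneg _ _)) hreal
  exact ⟨a, h0, hsum, hsum.tsum_le_of_sum_le hreal⟩

end

section

variable {G : Type*} [AddCommGroup G] [TopologicalSpace G] [IsTopologicalAddGroup G]
  [CompactSpace G] [T2Space G] [TotallyDisconnectedSpace G]
  [MeasurableSpace G] [BorelSpace G] (μ : Measure G) [μ.IsAddHaarMeasure] [μ.Regular]
  [IsProbabilityMeasure μ]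

lemma fc_sum_diff {m : ℕ} (a : Fin m → G) (h : Fin m → Lp ℂ 2 μ) (ψ : Ch G) :
    fc μ (∑ j, (h j - tau μ (a j) (h j))) ψ =
      ∑ j, (1 - conj ((ψ.1 (a j) : Circle) : ℂ)) * fc μ (h j) ψ := by
  rw [fc_sum]
  apply Finset.sum_congr rfl
  intro j _
  rw [fc_sub, fc_tau]
  ring

lemma norm_one_sub_conj (z : Circle) : ‖1 - conj (z : ℂ)‖ = ‖1 - (z : ℂ)‖ := by
  rw [← Complex.norm_conj (1 - (z : ℂ))]
  simp

theorem synth {m : ℕ} (f : Lp ℂ 2 μ) (a : Fin m → G)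
    (h0 : ∀ ψ : Ch G, Dc ψ.1 a = 0 → fc μ f ψ = 0)
    (hs : Summable (fun ψ : Ch G => ‖fc μ f ψ‖ ^ 2 / Dc ψ.1 a)) :
    ∃ h : Fin m → Lp ℂ 2 μ, f = ∑ j, (h j - tau μ (a j) (h j)) ∧
      ∑ j, ‖h j‖ ^ 2 = ∑' ψ : Ch G, ‖fc μ f ψ‖ ^ 2 / Dc ψ.1 a := by
  let c : Fin m → Ch G → ℂ := fun j ψ =>
    fc μ f ψ * (1 - ((ψ.1 (a j) : Circle) : ℂ)) / (Dc ψ.1 a : ℂ)
  have hc : ∀ j ψ, ‖c j ψ‖ ^ 2 = ‖fc μ f ψ‖ ^ 2 * ‖1 - ((ψ.1 (a j) : Circle) : ℂ)‖ ^ 2 / (Dc ψ.1 a) ^ 2 := by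
    intro j ψ
    simp only [c]
    rw [norm_div, norm_mul, Complex.norm_real, Real.norm_eq_abs, abs_of_nonneg (Dc_nonneg _ _)]
    rw [div_pow, mul_pow]
  have hle : ∀ j ψ, ‖c j ψ‖ ^ 2 ≤ ‖fc μ f ψ‖ ^ 2 / Dc ψ.1 a := by
    intro j ψ
    rw [hc]
    rcases (Dc_nonneg ψ.1 a).lt_or_eq with h | h
    · rw [div_le_div_iff₀ (by positivity) h]
      have h1 : ‖1 - ((ψ.1 (a j) : Circle) : ℂ)‖ ^ 2 ≤ Dc ψ.1 a := by
        unfold Dc
        exact Finset.single_le_sum (f := fun j => ‖1 - ((ψ.1 (a j) : Circle) : ℂ)‖ ^ 2)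
          (fun _ _ => by positivity) (Finset.mem_univ j)
      have h2 : 0 ≤ ‖fc μ f ψ‖ ^ 2 * Dc ψ.1 a := by positivity
      nlinarith
    · rw [← h]
      simp
  have hsc : ∀ j, Summable (fun ψ => ‖c j ψ‖ ^ 2) := fun j =>
    Summable.of_nonneg_of_le (fun ψ => by positivity) (hle j) hs
  choose h hh using fun j => exists_fc μ (c j) (hsc j)
  refine ⟨h, ?_, ?_⟩
  · apply fc_ext μ
    intro ψ
    rw [fc_sum_diff]
    simp only [hh]
    rcases (Dc_nonneg ψ.1 a).lt_or_eq with hD | hD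
    · have h1 : ∀ j, (1 - conj ((ψ.1 (a j) : Circle) : ℂ)) * c j ψ =
          fc μ f ψ / (Dc ψ.1 a : ℂ) * ((‖1 - ((ψ.1 (a j) : Circle) : ℂ)‖ ^ 2 : ℝ) : ℂ) := by
        intro j
        have h2 : (1 - conj ((ψ.1 (a j) : Circle) : ℂ)) * (1 - ((ψ.1 (a j) : Circle) : ℂ)) =
            ((‖1 - ((ψ.1 (a j) : Circle) : ℂ)‖ ^ 2 : ℝ) : ℂ) := by
          have h3 := Complex.conj_mul' (1 - ((ψ.1 (a j) : Circle) : ℂ))
          rw [map_sub, map_one] at h3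
          rw [h3]
          push_cast
          rfl
        simp only [c]
        rw [← h2]
        ring
      rw [Finset.sum_congr rfl (fun j _ => h1 j), ← Finset.mul_sum, ← Complex.ofReal_sum]
      have h4 : ∑ j, ‖1 - ((ψ.1 (a j) : Circle) : ℂ)‖ ^ 2 = Dc ψ.1 a := rfl
      rw [h4, div_mul_cancel₀]
      exact_mod_cast hD.ne'
    · rw [h0 ψ hD.symm]
      symm
      apply Finset.sum_eq_zero
      intro j _
      simp only [c]
      rw [h0 ψ hD.symm]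
      simp
  · have h1 : ∀ j, ‖h j‖ ^ 2 = ∑' ψ, ‖c j ψ‖ ^ 2 := by
      intro j
      rw [← fc_norm_sq]
      simp only [hh]
    rw [Finset.sum_congr rfl (fun j _ => h1 j), ← Summable.tsum_finsetSum (fun j _ => hsc j)]
    congr 1
    funext ψ
    simp only [hc]
    rw [← Finset.sum_div, ← Finset.mul_sum]
    have h4 : ∑ j, ‖1 - ((ψ.1 (a j) : Circle) : ℂ)‖ ^ 2 = Dc ψ.1 a := rfl
    rw [h4]
    rcases (Dc_nonneg ψ.1 a).lt_or_eq with hD | hD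
    · field_simp
    · rw [← hD]
      simp

/-- Converse. -/
theorem anal {m : ℕ} (a : Fin m → G) (h : Fin m → Lp ℂ 2 μ) (f : Lp ℂ 2 μ)
    (hf : f = ∑ j, (h j - tau μ (a j) (h j))) (ψ : Ch G) :
    ‖fc μ f ψ‖ ^ 2 ≤ Dc ψ.1 a * ∑ j, ‖fc μ (h j) ψ‖ ^ 2 := by
  rw [hf, fc_sum_diff]
  calc ‖∑ j, (1 - conj ((ψ.1 (a j) : Circle) : ℂ)) * fc μ (h j) ψ‖ ^ 2
      ≤ (∑ j, ‖1 - ((ψ.1 (a j) : Circle) : ℂ)‖ * ‖fc μ (h j) ψ‖) ^ 2 := by
        apply pow_le_pow_left₀ (norm_nonneg _)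
        refine (norm_sum_le _ _).trans (le_of_eq ?_)
        apply Finset.sum_congr rfl
        intro j _
        rw [norm_mul, norm_one_sub_conj]
    _ ≤ (∑ j, ‖1 - ((ψ.1 (a j) : Circle) : ℂ)‖ ^ 2) * ∑ j, ‖fc μ (h j) ψ‖ ^ 2 :=
        Finset.sum_mul_sq_le_sq_mul_sq _ _ _
    _ = Dc ψ.1 a * ∑ j, ‖fc μ (h j) ψ‖ ^ 2 := rfl

lemma summable_sum_fc {m : ℕ} (h : Fin m → Lp ℂ 2 μ) :
    Summable (fun ψ : Ch G => ∑ j, ‖fc μ (h j) ψ‖ ^ 2) :=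
  summable_sum (fun j _ => fc_summable μ (h j))

/-- **Upper bound.** -/
theorem upper {m : ℕ} (hm : 3 ≤ m) {a₀ : Fin m → G}
    (ha₀ : Dense ((AddSubgroup.closure (Set.range a₀) : AddSubgroup G) : Set G))
    (f : Lp ℂ 2 μ) (hf : ∫ x, f x ∂μ = 0) :
    ∃ (a : Fin m → G) (h : Fin m → Lp ℂ 2 μ), f = ∑ j, (h j - tau μ (a j) (h j)) ∧
      ∑ j, ‖h j‖ ^ 2 ≤ 58 * ‖f‖ ^ 2 := by
  have hc1 : ∀ ψ : Ch G, (∀ x, ψ.1 x = 1) → ‖fc μ f ψ‖ ^ 2 = 0 := by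
    intro ψ hψ
    have : ψ = ch1 := by
      apply Subtype.ext
      ext x
      rw [hψ x]
      rfl
    rw [this, fc_one, hf]
    simp
  obtain ⟨a, h0, hs, hle⟩ := exists_tuple hm ha₀ (fun ψ => ‖fc μ f ψ‖ ^ 2)
    (fun ψ => by positivity) hc1 (fc_summable μ f)
  obtain ⟨h, hh1, hh2⟩ := synth μ f a (fun ψ hψ => by
    have := h0 ψ hψ
    simpa using this) hs
  refine ⟨a, h, hh1, ?_⟩
  rw [hh2, ← fc_norm_sq μ f]
  exact hle

end

end Pool.Agent.H44.TILF
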