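import Pool.Agent.H44.TILF.Low1
import Pool.Agent.H44.TILF.Upper

set_option autoImplicit false
set_option linter.unusedSectionVars false
set_option linter.overlappingInstances false

namespace Pool.Agent.H44.TILF

open MeasureTheory Set Submodule
open scoped InnerProductSpace ComplexConjugate

section

variable {G : Type*} [AddCommGroup G] [TopologicalSpace G] [IsTopologicalAddGroup G]
  [CompactSpace G] [T2Space G] [TotallyDisconnectedSpace G]

/-- kernel of a character -/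
def chker (ψ : Ch G) : AddSubgroup G where
  carrier := {y | ψ.1 y = 1}
  zero_mem' := by simp
  add_mem' := by
    intro y z hy hz
    simp only [Set.mem_ofPred_eq] at hy hz ⊢
    rw [AddChar.map_add_eq_mul, hy, hz, one_mul]
  neg_mem' := by
    intro y hy
    simp only [Set.mem_ofPred_eq] at hy ⊢
    rw [AddChar.map_neg_eq_inv, hy, inv_one]

lemma mem_chker (ψ : Ch G) (x : G) : x ∈ chker ψ ↔ ψ.1 x = 1 := Iff.rfl

lemma isOpen_chker (ψ : Ch G) : IsOpen (chker ψ : Set G) := by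
  obtain ⟨U, hU⟩ := exists_open_ker ψ
  have h1 : U.toAddSubgroup ≤ chker ψ := fun x hx => hU x hx
  exact AddSubgroup.isOpen_mono h1 U.isOpen

theorem finite_kill {m : ℕ}
    (hno : ∀ a : Fin m → G, ¬ Dense ((AddSubgroup.closure (Set.range a) : AddSubgroup G) : Set G)) :
    ∃ F : Finset (Ch G), (∀ ψ ∈ F, ∃ x, ψ.1 x ≠ 1) ∧
      ∀ a : Fin m → G, ∃ ψ ∈ F, ∀ j, ψ.1 (a j) = 1 := by
  classical
  let I := {ψ : Ch G // ∃ x, ψ.1 x ≠ 1}
  let O : I → Set (Fin m → G) := fun ψ => {a | ∀ j, ψ.1.1 (a j) = 1}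
  have hO : ∀ i, IsOpen (O i) := by
    intro ψ
    have : O ψ = Set.pi Set.univ (fun _ => (chker ψ.1 : Set G)) := by
      ext a
      simp [O, mem_chker]
    rw [this]
    exact isOpen_set_pi Set.finite_univ (fun _ _ => isOpen_chker ψ.1)
  have hcov : (Set.univ : Set (Fin m → G)) ⊆ ⋃ i, O i := by
    intro a _
    obtain ⟨ψ, hψ1, hψ2⟩ := exists_char_of_not_dense _ (hno a)
    rw [Set.mem_iUnion]
    refine ⟨⟨ψ, hψ2⟩, fun j => ?_⟩
    exact hψ1 _ (AddSubgroup.subset_closure (Set.mem_range_self j))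
  obtain ⟨t, ht⟩ := isCompact_univ.elim_finite_subcover O hO hcov
  refine ⟨t.image Subtype.val, ?_, ?_⟩
  · intro ψ hψ
    rw [Finset.mem_image] at hψ
    obtain ⟨i, _, rfl⟩ := hψ
    exact i.2
  · intro a
    have h1 := ht (Set.mem_univ a)
    rw [Set.mem_iUnion₂] at h1
    obtain ⟨i, hi, hai⟩ := h1
    exact ⟨i.1, Finset.mem_image_of_mem _ hi, hai⟩

lemma exists_pi_prof (ψ : Ch G) (hψ : ∃ x, ψ.1 x ≠ 1) :
    ∃ (n : ℕ) (_ : NeZero n) (π : G →+ ZMod n), 2 ≤ n ∧ Function.Surjective π ∧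
      ∀ a, ZMod.toCircle (π a) = ψ.1 a := by
  have hfin : Finite (G ⧸ chker ψ) := (chker ψ).quotient_finite_of_isOpen (isOpen_chker ψ)
  obtain ⟨x, hx⟩ := hψ
  obtain ⟨n, hn, π, hn2, hsurj, hπ⟩ := exists_pi (descend (chker ψ) ψ.1 (fun y h => (mem_chker ψ y).mp h))
    ⟨QuotientAddGroup.mk x, by rw [descend_mk]; exact hx⟩
  refine ⟨n, hn, π.comp (QuotientAddGroup.mk' (chker ψ)), hn2, ?_, ?_⟩
  · exact hsurj.comp (QuotientAddGroup.mk'_surjective _)
  · intro a
    rw [AddMonoidHom.comp_apply, hπ]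
    rfl

lemma unbounded [Infinite G] {m : ℕ} {a₀ : Fin m → G}
    (ha₀ : Dense ((AddSubgroup.closure (Set.range a₀) : AddSubgroup G) : Set G)) (N : ℕ) :
    ∃ (ψ : Ch G) (n : ℕ) (_ : NeZero n) (π : G →+ ZMod n), N ≤ n ∧ 2 ≤ n ∧
      Function.Surjective π ∧ ∀ a, ZMod.toCircle (π a) = ψ.1 a := by
  by_contra hcon
  push Not at hcon
  have hexp : ∀ x : G, N.factorial • x = 0 := by
    intro x
    by_contra hne
    obtain ⟨ψ, hψ⟩ := exists_char_ne _ _ hne
    rw [AddChar.map_zero_eq_one] at hψ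
    obtain ⟨n, hn, π, hn2, hsurj, hπ⟩ := exists_pi_prof ψ ⟨_, hψ⟩
    have hlt : n < N := by
      by_contra hge
      obtain ⟨a, ha⟩ := hcon ψ n hn π (not_lt.mp hge) hn2 hsurj
      exact ha (hπ a)
    apply hψ
    rw [← hπ, map_nsmul]
    have hdvd : n ∣ N.factorial := Nat.dvd_factorial (by omega) hlt.le
    have h0 : N.factorial • π x = 0 := by
      rw [nsmul_eq_mul, (ZMod.natCast_eq_zero_iff _ _).mpr hdvd, zero_mul]
    rw [h0]
    simp
  set H := AddSubgroup.closure (Set.range a₀) with hH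
  have hfg : AddGroup.FG H := by
    rw [AddGroup.fg_iff_addSubgroup_fg]
    exact ⟨(Set.finite_range a₀).toFinset, by simp [hH]⟩
  have htor : IsAddTorsion H := by
    intro y
    rw [isOfFinAddOrder_iff_nsmul_eq_zero]
    refine ⟨N.factorial, Nat.factorial_pos N, ?_⟩
    apply Subtype.ext
    simpa using hexp y
  have hfinH : Finite H := AddCommGroup.finite_of_fg_isAddTorsion H htor
  have hclosed : IsClosed (H : Set G) := (Set.toFinite (H : Set G)).isClosed
  have huniv : (H : Set G) = Set.univ := by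
    rw [← hclosed.closure_eq]
    exact ha₀.closure_eq
  have : Finite G := by
    rw [← Set.finite_univ_iff, ← huniv]
    exact Set.toFinite _
  exact not_finite G

end

section

variable {G : Type*} [AddCommGroup G] [TopologicalSpace G] [IsTopologicalAddGroup G]
  [CompactSpace G] [T2Space G] [TotallyDisconnectedSpace G]
  [MeasurableSpace G] [BorelSpace G] (μ : Measure G) [μ.IsAddHaarMeasure] [μ.Regular]
  [IsProbabilityMeasure μ]

lemma ch1_of_trivial {ψ : Ch G} (h : ∀ x, ψ.1 x = 1) : ψ = ch1 := by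
  apply Subtype.ext
  ext x
  rw [h x]
  rfl

/-- Decomposability of every mean-zero `f` into `m` differences. -/
def AllSums (m : ℕ) : Prop :=
  ∀ f : Lp ℂ 2 μ, ∫ x, f x ∂μ = 0 → ∃ (a : Fin m → G) (h : Fin m → Lp ℂ 2 μ),
    f = ∑ j, (h j - tau μ (a j) (h j))

theorem lower1 {m : ℕ} (hall : AllSums μ m) :
    ∃ a : Fin m → G, Dense ((AddSubgroup.closure (Set.range a) : AddSubgroup G) : Set G) := by
  classical
  by_contra hcon
  push Not at hcon
  obtain ⟨F, hF1, hF2⟩ := finite_kill hcon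
  obtain ⟨f, hf⟩ := exists_fc μ (fun ψ : Ch G => if ψ ∈ F then (1 : ℂ) else 0) (by
    apply summable_of_ne_finset_zero (s := F)
    intro ψ hψ
    simp [hψ])
  have hint : ∫ x, f x ∂μ = 0 := by
    rw [← fc_one, hf, if_neg]
    intro h
    obtain ⟨x, hx⟩ := hF1 _ h
    exact hx rfl
  obtain ⟨a, h, hfa⟩ := hall f hint
  obtain ⟨ψ, hψF, hψ⟩ := hF2 a
  have h1 := anal μ a h f hfa ψ
  rw [Dc_eq_zero.mpr hψ, zero_mul, hf, if_pos hψF] at h1
  simp at h1
  linarith

lemma chpow_apply (ψ : Ch G) {n : ℕ} [NeZero n] (π : G →+ ZMod n)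
    (hπ : ∀ a, ZMod.toCircle (π a) = ψ.1 a) (k : ZMod n) (x : G) :
    (chpow ψ k.val).1 x = ZMod.toCircle (k * π x) := by
  have h1 : (chpow ψ k.val).1 x = (ψ.1 x) ^ k.val := rfl
  rw [h1, ← hπ, ← AddChar.map_nsmul_eq_pow, nsmul_eq_mul, ZMod.natCast_zmod_val]

lemma harmonic_large (L : ℝ) : ∃ Q : ℕ, L ≤ ∑ q ∈ Finset.Icc 1 Q, 1 / (q : ℝ) := by
  have h1 := Real.tendsto_sum_range_one_div_nat_succ_atTop
  rw [Filter.tendsto_atTop] at h1
  obtain ⟨Q, hQ⟩ := (h1 L).exists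
  refine ⟨Q, hQ.trans (le_of_eq ?_)⟩
  clear hQ h1
  induction Q with
  | zero => simp
  | succ Q ih =>
    rw [Finset.sum_range_succ, ih, Finset.sum_Icc_succ_top (by omega)]
    push_cast
    rfl

theorem lower2 [Infinite G] {m m₀ : ℕ} (hm : m ≤ 2) {a₀ : Fin m₀ → G}
    (ha₀ : Dense ((AddSubgroup.closure (Set.range a₀) : AddSubgroup G) : Set G)) :
    ¬ AllSums μ m := by
  classical
  intro hall
  -- the data
  have hdata : ∀ i : ℕ, ∃ (ψ : Ch G) (n : ℕ) (_ : NeZero n) (π : G →+ ZMod n) (Q : ℕ),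
      2 ≤ n ∧ Function.Surjective π ∧ (∀ a, ZMod.toCircle (π a) = ψ.1 a) ∧ Q ^ 2 ≤ n ∧
      8 * Real.pi ^ 2 * (4 : ℝ) ^ i + 1 ≤ ∑ q ∈ Finset.Icc 1 Q, 1 / (q : ℝ) := by
    intro i
    obtain ⟨Q, hQ⟩ := harmonic_large (8 * Real.pi ^ 2 * (4 : ℝ) ^ i + 1)
    obtain ⟨ψ, n, hn, π, hNn, hn2, hsurj, hπ⟩ := unbounded ha₀ (Q ^ 2)
    exact ⟨ψ, n, hn, π, Q, hn2, hsurj, hπ, hNn, hQ⟩
  choose ψ n hn π Q hn2 hsurj hπ hQn hQ using hdata
  let S : ∀ i : ℕ, Finset (Ch G) := fun i =>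
    (Finset.univ.filter (fun k : ZMod (n i) => k ≠ 0)).image (fun k => chpow (ψ i) k.val)
  have hinj : ∀ i, Function.Injective (fun k : ZMod (n i) => chpow (ψ i) k.val) := by
    intro i k k' hkk
    obtain ⟨x, hx⟩ := hsurj i 1
    have h1 := congrArg (fun χ : Ch G => χ.1 x) hkk
    simp only [chpow_apply (ψ i) (π i) (hπ i), hx, mul_one] at h1
    exact ZMod.injective_toCircle h1
  let g : ℕ → Ch G → ℝ := fun i χ => if χ ∈ S i then (1 / 2 : ℝ) ^ i / (n i : ℝ) else 0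
  have hn0 : ∀ i, (0 : ℝ) < n i := fun i => by exact_mod_cast Nat.pos_of_ne_zero (NeZero.ne (n i))
  have hg0 : ∀ i χ, 0 ≤ g i χ := by
    intro i χ
    simp only [g]
    have := hn0 i
    split_ifs <;> positivity
  have hgs : ∀ i, Summable (g i) := by
    intro i
    apply summable_of_ne_finset_zero (s := S i)
    intro χ hχ
    simp [g, hχ]
  have hcardS : ∀ i, (S i).card ≤ n i := by
    intro i
    refine Finset.card_image_le.trans ((Finset.card_filter_le _ _).trans ?_)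
    rw [Finset.card_univ, ZMod.card]
  have hgt : ∀ i, ∑' χ, g i χ ≤ (1 / 2 : ℝ) ^ i := by
    intro i
    rw [tsum_eq_sum (s := S i) (by intro χ hχ; simp [g, hχ])]
    have h1 : ∑ χ ∈ S i, g i χ = ((S i).card : ℝ) * ((1 / 2 : ℝ) ^ i / (n i : ℝ)) := by
      rw [← nsmul_eq_mul, ← Finset.sum_const]
      apply Finset.sum_congr rfl
      intro χ hχ
      simp [g, hχ]
    rw [h1]
    have h2 : ((S i).card : ℝ) ≤ n i := by exact_mod_cast hcardS i
    calc ((S i).card : ℝ) * ((1 / 2 : ℝ) ^ i / (n i : ℝ))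
        ≤ (n i : ℝ) * ((1 / 2 : ℝ) ^ i / (n i : ℝ)) :=
          mul_le_mul_of_nonneg_right h2 (div_nonneg (by positivity) (hn0 i).le)
      _ = (1 / 2 : ℝ) ^ i := by
          have := (hn0 i).ne'
          field_simp
  have hF : Summable (fun p : ℕ × Ch G => g p.1 p.2) := by
    rw [summable_prod_of_nonneg (fun p => hg0 p.1 p.2)]
    refine ⟨hgs, ?_⟩
    apply Summable.of_nonneg_of_le (fun i => tsum_nonneg (hg0 i)) hgt
    exact summable_geometric_of_lt_one (by norm_num) (by norm_num)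
  have hFs : Summable (fun p : Ch G × ℕ => g p.2 p.1) := hF.prod_symm
  let c : Ch G → ℝ := fun χ => ∑' i, g i χ
  have hcs : Summable c := hFs.prod
  have hci : ∀ χ, Summable (fun i => g i χ) := fun χ => hFs.prod_factor χ
  have hc0 : ∀ χ, 0 ≤ c χ := fun χ => tsum_nonneg (fun i => hg0 i χ)
  have hcg : ∀ i χ, g i χ ≤ c χ := fun i χ => (hci χ).le_tsum i (fun j _ => hg0 j χ)
  obtain ⟨f, hf⟩ := exists_fc μ (fun χ : Ch G => ((Real.sqrt (c χ) : ℝ) : ℂ)) (by
    have : (fun χ : Ch G => ‖((Real.sqrt (c χ) : ℝ) : ℂ)‖ ^ 2) = c := by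
      funext χ
      rw [Complex.norm_real, Real.norm_eq_abs, sq_abs, Real.sq_sqrt (hc0 χ)]
    rw [this]
    exact hcs)
  have hfn : ∀ χ, ‖fc μ f χ‖ ^ 2 = c χ := by
    intro χ
    rw [hf, Complex.norm_real, Real.norm_eq_abs, sq_abs, Real.sq_sqrt (hc0 χ)]
  have hint : ∫ x, f x ∂μ = 0 := by
    rw [← fc_one, hf]
    have h1 : c ch1 = 0 := by
      have h2 : ∀ i, g i ch1 = 0 := by
        intro i
        simp only [g]
        rw [if_neg]
        intro h
        rw [Finset.mem_image] at h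
        obtain ⟨k, hk, hk1⟩ := h
        rw [Finset.mem_filter] at hk
        apply hk.2
        obtain ⟨x, hx⟩ := hsurj i 1
        have h3 := congrArg (fun χ : Ch G => χ.1 x) hk1
        simp only [chpow_apply (ψ i) (π i) (hπ i), hx, mul_one] at h3
        have h4 : ZMod.toCircle k = ZMod.toCircle (0 : ZMod (n i)) := by
          rw [h3]
          simp [ch1]
        exact ZMod.injective_toCircle h4
      simp [c, h2]
    rw [h1]
    simp
  obtain ⟨a, h, hfa⟩ := hall f hint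
  let E : Ch G → ℝ := fun χ => ∑ j, ‖fc μ (h j) χ‖ ^ 2
  have hE0 : ∀ χ, 0 ≤ E χ := fun χ => Finset.sum_nonneg (fun _ _ => by positivity)
  have hEs : Summable E := summable_sum_fc μ h
  have hanal : ∀ χ, c χ ≤ Dc χ.1 a * E χ := by
    intro χ
    rw [← hfn]
    exact anal μ a h f hfa χ
  -- lower bound for the sum of `E`
  have hlow : ∀ i : ℕ, (2 : ℝ) ^ i ≤ ∑' χ, E χ := by
    intro i
    have hDD : ∀ k : ZMod (n i), Dc (chpow (ψ i) k.val).1 a = DD (fun j => k * π i (a j)) := by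
      intro k
      unfold Dc DD
      apply Finset.sum_congr rfl
      intro j _
      rw [chpow_apply (ψ i) (π i) (hπ i)]
    have hmem : ∀ k : ZMod (n i), k ≠ 0 → chpow (ψ i) k.val ∈ S i := by
      intro k hk
      exact Finset.mem_image_of_mem _ (Finset.mem_filter.mpr ⟨Finset.mem_univ _, hk⟩)
    have hcpos : ∀ k : ZMod (n i), k ≠ 0 →
        (1 / 2 : ℝ) ^ i / (n i : ℝ) ≤ DD (fun j => k * π i (a j)) * E (chpow (ψ i) k.val) := by
      intro k hk
      have h1 := hcg i (chpow (ψ i) k.val)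
      simp only [g] at h1
      rw [if_pos (hmem k hk)] at h1
      rw [← hDD]
      exact h1.trans (hanal _)
    have hw : 0 < (1 / 2 : ℝ) ^ i / (n i : ℝ) := div_pos (by positivity) (hn0 i)
    have hne : ∀ k : ZMod (n i), k ≠ 0 → DD (fun j => k * π i (a j)) ≠ 0 := by
      intro k hk h0
      have h1 := hcpos k hk
      rw [h0, zero_mul] at h1
      linarith
    have hls := lower_sum hm (fun j => π i (a j)) (Q i) (hQn i) hne
    have hstep : (1 / 2 : ℝ) ^ i / (n i : ℝ) *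
        ∑ k ∈ Finset.univ.filter (fun k : ZMod (n i) => k ≠ 0), (DD (fun j => k * π i (a j)))⁻¹ ≤
        ∑' χ, E χ := by
      calc (1 / 2 : ℝ) ^ i / (n i : ℝ) *
          ∑ k ∈ Finset.univ.filter (fun k : ZMod (n i) => k ≠ 0), (DD (fun j => k * π i (a j)))⁻¹
          = ∑ k ∈ Finset.univ.filter (fun k : ZMod (n i) => k ≠ 0),
            (1 / 2 : ℝ) ^ i / (n i : ℝ) * (DD (fun j => k * π i (a j)))⁻¹ := by
            rw [Finset.mul_sum]
        _ ≤ ∑ k ∈ Finset.univ.filter (fun k : ZMod (n i) => k ≠ 0), E (chpow (ψ i) k.val) := by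
            apply Finset.sum_le_sum
            intro k hk
            rw [Finset.mem_filter] at hk
            have hD0 : 0 < DD (fun j => k * π i (a j)) := by
              apply lt_of_le_of_ne _ (Ne.symm (hne k hk.2))
              unfold DD; positivity
            rw [← div_eq_mul_inv, div_le_iff₀ hD0]
            have := hcpos k hk.2
            linarith
        _ = ∑ χ ∈ S i, E χ := by
            simp only [S]
            rw [Finset.sum_image (fun k _ k' _ hkk => hinj i hkk)]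
        _ ≤ ∑' χ, E χ := hEs.sum_le_tsum _ (fun χ _ => hE0 χ)
    refine le_trans ?_ hstep
    have h2 : (1 / 2 : ℝ) ^ i / (n i : ℝ) *
        ((n i : ℝ) * (∑ q ∈ Finset.Icc 1 (Q i), 1 / (q : ℝ) - 1) / (8 * Real.pi ^ 2)) ≤
        (1 / 2 : ℝ) ^ i / (n i : ℝ) *
        ∑ k ∈ Finset.univ.filter (fun k : ZMod (n i) => k ≠ 0), (DD (fun j => k * π i (a j)))⁻¹ :=
      mul_le_mul_of_nonneg_left hls hw.le
    refine le_trans ?_ h2
    have h3 : (1 / 2 : ℝ) ^ i / (n i : ℝ) *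
        ((n i : ℝ) * (∑ q ∈ Finset.Icc 1 (Q i), 1 / (q : ℝ) - 1) / (8 * Real.pi ^ 2)) =
        (1 / 2 : ℝ) ^ i * ((∑ q ∈ Finset.Icc 1 (Q i), 1 / (q : ℝ) - 1) / (8 * Real.pi ^ 2)) := by
      have := (hn0 i).ne'
      have := Real.pi_pos.ne'
      field_simp
    rw [h3]
    have h4 : (4 : ℝ) ^ i ≤ (∑ q ∈ Finset.Icc 1 (Q i), 1 / (q : ℝ) - 1) / (8 * Real.pi ^ 2) := by
      rw [le_div_iff₀ (by positivity)]
      have := hQ i
      linarith
    calc (2 : ℝ) ^ i = (1 / 2 : ℝ) ^ i * (4 : ℝ) ^ i := by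
          rw [← mul_pow]; norm_num
      _ ≤ _ := mul_le_mul_of_nonneg_left h4 (by positivity)
  obtain ⟨i, hi⟩ := pow_unbounded_of_one_lt (∑' χ, E χ) (by norm_num : (1 : ℝ) < 2)
  exact absurd (hlow i) (not_le.mpr hi)

end

end Pool.Agent.H44.TILF
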