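import Pool.Agent.H44.TILF.Fin4

set_option autoImplicit false
set_option linter.unusedSectionVars false

namespace Pool.Agent.H44.TILF

open Finset

/-- Continuous characters of a topological abelian group. -/
abbrev Ch (G : Type*) [AddCommGroup G] [TopologicalSpace G] : Type _ :=
  {ψ : AddChar G Circle // Continuous ψ}

section

variable {G : Type*} [AddCommGroup G] [TopologicalSpace G]

lemma circle_cont : Continuous (fun z : Circle => (z : ℂ)) := continuous_subtype_val

/-- The circle has no small subgroups. -/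
lemma circle_small (z : Circle) (hz : ∀ k : ℕ, ‖((z ^ (2 ^ k) : Circle) : ℂ) - 1‖ ≤ 1 / 2) : z = 1 := by
  have h1 : ∀ k : ℕ, (3 / 2 : ℝ) ^ k * ‖((z : Circle) : ℂ) - 1‖ ≤ ‖((z ^ (2 ^ k) : Circle) : ℂ) - 1‖ := by
    intro k
    induction k with
    | zero => simp
    | succ k ih =>
      set w : ℂ := ((z ^ (2 ^ k) : Circle) : ℂ) with hw
      have h2 : ((z ^ (2 ^ (k + 1)) : Circle) : ℂ) = w ^ 2 := by
        rw [hw, ← Circle.coe_pow, ← pow_mul, pow_succ]
      rw [h2]
      have h3 : w ^ 2 - 1 = (w - 1) * (w + 1) := by ring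
      rw [h3, norm_mul]
      have h4 : (3 / 2 : ℝ) ≤ ‖w + 1‖ := by
        have h5 : ‖w - 1‖ ≤ 1 / 2 := hz k
        have h6 : (2 : ℝ) = ‖(w + 1) - (w - 1)‖ := by
          have : (w + 1) - (w - 1) = 2 := by ring
          rw [this]; simp
        have h7 := norm_sub_le (w + 1) (w - 1)
        linarith
      calc (3 / 2 : ℝ) ^ (k + 1) * ‖((z : Circle) : ℂ) - 1‖
          = ((3 / 2 : ℝ) ^ k * ‖((z : Circle) : ℂ) - 1‖) * (3 / 2) := by rw [pow_succ]; ring
        _ ≤ ‖w - 1‖ * ‖w + 1‖ := by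
            apply mul_le_mul ih h4 (by norm_num) (norm_nonneg _)
  by_contra hne
  have hpos : 0 < ‖((z : Circle) : ℂ) - 1‖ := by
    rw [norm_pos_iff, sub_ne_zero]
    intro h
    exact hne (Circle.ext (by rw [h, Circle.coe_one]))
  obtain ⟨k, hk⟩ := pow_unbounded_of_one_lt (1 / ‖((z : Circle) : ℂ) - 1‖) (by norm_num : (1 : ℝ) < 3 / 2)
  have h2 := (h1 k).trans (hz k)
  rw [div_lt_iff₀ hpos] at hk
  linarith

variable [IsTopologicalAddGroup G] [CompactSpace G] [T2Space G] [TotallyDisconnectedSpace G]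

lemma exists_openAddSubgroup_subset {V : Set G} (hV : V ∈ nhds (0 : G)) :
    ∃ U : OpenAddSubgroup G, (U : Set G) ⊆ V := by
  obtain ⟨W, hW, h0W, hWV⟩ : ∃ W : Set G, IsClopen W ∧ (0 : G) ∈ W ∧ W ⊆ V := by
    obtain ⟨O, hOV, hO, h0O⟩ := mem_nhds_iff.mp hV
    obtain ⟨W, hW, h0, hWO⟩ := compact_exists_isClopen_in_isOpen hO h0O
    exact ⟨W, hW, h0, hWO.trans hOV⟩
  obtain ⟨H, hH⟩ := IsTopologicalAddGroup.exist_openAddSubgroup_sub_clopen_nhds_of_zero hW h0W
  exact ⟨H, hH.trans hWV⟩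

lemma exists_open_ker (ψ : Ch G) : ∃ U : OpenAddSubgroup G, ∀ x ∈ U, ψ.1 x = 1 := by
  have hc : Continuous (fun x : G => ‖((ψ.1 x : Circle) : ℂ) - 1‖) :=
    ((circle_cont.comp ψ.2).sub continuous_const).norm
  have hV : {x : G | ‖((ψ.1 x : Circle) : ℂ) - 1‖ < 1 / 2} ∈ nhds (0 : G) := by
    apply (isOpen_lt hc continuous_const).mem_nhds
    simp
  obtain ⟨U, hU⟩ := exists_openAddSubgroup_subset hV
  refine ⟨U, fun x hx => circle_small _ (fun k => ?_)⟩
  have h1 : (2 ^ k : ℕ) • x ∈ U := by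
    exact nsmul_mem hx _
  have h2 := hU h1
  simp only [Set.mem_ofPred_eq] at h2
  rw [AddChar.map_nsmul_eq_pow] at h2
  exact h2.le

lemma exists_open_kers (F : Finset (Ch G)) :
    ∃ U : OpenAddSubgroup G, ∀ ψ ∈ F, ∀ x ∈ U, ψ.1 x = 1 := by
  classical
  induction F using Finset.induction_on with
  | empty => exact ⟨⊤, by simp⟩
  | insert ψ F _ ih =>
    obtain ⟨U, hU⟩ := ih
    obtain ⟨V, hV⟩ := exists_open_ker ψ
    refine ⟨U ⊓ V, ?_⟩
    intro χ hχ x hx
    rw [Finset.mem_insert] at hχ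
    have hx' : x ∈ U ∧ x ∈ V := hx
    rcases hχ with rfl | hχ
    · exact hV x hx'.2
    · exact hU χ hχ x hx'.1

/-- Pull back a character of the finite quotient. -/
lemma exists_char_of_notMem (K : AddSubgroup G) (hK : IsOpen (K : Set G)) {x : G} (hx : x ∉ K) :
    ∃ ψ : Ch G, (∀ k ∈ K, ψ.1 k = 1) ∧ ψ.1 x ≠ 1 := by
  have hfin : Finite (G ⧸ K) := K.quotient_finite_of_isOpen hK
  have hdisc : DiscreteTopology (G ⧸ K) := QuotientAddGroup.discreteTopology hK
  have hne : (QuotientAddGroup.mk x : G ⧸ K) ≠ 0 := by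
    intro h
    exact hx ((QuotientAddGroup.eq_zero_iff x).mp h)
  obtain ⟨χ, hχ⟩ := AddChar.exists_apply_ne_zero.mpr hne
  let χ' : AddChar (G ⧸ K) Circle := AddChar.circleEquivComplex.symm χ
  have hχ' : ∀ y, ((χ' y : Circle) : ℂ) = χ y := by
    intro y
    have h1 : AddChar.circleEquivComplex χ' = χ := AddChar.circleEquivComplex.apply_symm_apply χ
    rw [← h1]
    rfl
  refine ⟨⟨χ'.compAddMonoidHom (QuotientAddGroup.mk' K), ?_⟩, ?_, ?_⟩
  · have h1 : Continuous (χ' : G ⧸ K → Circle) := continuous_of_discreteTopology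
    exact h1.comp continuous_quotient_mk'
  · intro k hk
    have : (QuotientAddGroup.mk k : G ⧸ K) = 0 := (QuotientAddGroup.eq_zero_iff k).mpr hk
    simp only [AddChar.compAddMonoidHom_apply, QuotientAddGroup.mk'_apply]
    rw [this]
    simp
  · simp only [AddChar.compAddMonoidHom_apply, QuotientAddGroup.mk'_apply]
    intro h
    apply hχ
    rw [← hχ', h, Circle.coe_one]

/-- A subgroup that is not dense is killed by a non-trivial character. -/
lemma exists_char_of_not_dense (H : AddSubgroup G) (hH : ¬ Dense (H : Set G)) :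
    ∃ ψ : Ch G, (∀ k ∈ H, ψ.1 k = 1) ∧ ∃ x, ψ.1 x ≠ 1 := by
  rw [dense_iff_inter_open] at hH
  push Not at hH
  obtain ⟨O, hO, ⟨x, hxO⟩, hOH⟩ := hH
  have hV : {y : G | x + y ∈ O} ∈ nhds (0 : G) := by
    apply (hO.preimage (continuous_const.add continuous_id)).mem_nhds
    simpa using hxO
  obtain ⟨U, hU⟩ := exists_openAddSubgroup_subset hV
  have hKopen : IsOpen ((H ⊔ U.toAddSubgroup : AddSubgroup G) : Set G) :=
    AddSubgroup.isOpen_mono le_sup_right U.isOpen
  have hxK : x ∉ H ⊔ U.toAddSubgroup := by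
    intro hx
    rw [AddSubgroup.mem_sup] at hx
    obtain ⟨h, hh, u, hu, hhu⟩ := hx
    have h1 : x + (-u) ∈ O := hU (neg_mem hu)
    have h2 : x + (-u) = h := by rw [← hhu]; abel
    rw [h2] at h1
    have : h ∈ O ∩ (H : Set G) := ⟨h1, hh⟩
    rw [hOH] at this
    exact this
  obtain ⟨ψ, hψ1, hψ2⟩ := exists_char_of_notMem _ hKopen hxK
  exact ⟨ψ, fun k hk => hψ1 k (le_sup_left (α := AddSubgroup G) hk), x, hψ2⟩

/-- Characters separate points. -/
lemma exists_char_ne (x y : G) (hxy : x ≠ y) : ∃ ψ : Ch G, ψ.1 x ≠ ψ.1 y := by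
  have hV : {z : G | z ≠ x - y} ∈ nhds (0 : G) := by
    apply (isOpen_ne).mem_nhds
    intro h
    exact hxy (sub_eq_zero.mp h.symm)
  obtain ⟨U, hU⟩ := exists_openAddSubgroup_subset hV
  have hx : x - y ∉ U.toAddSubgroup := by
    intro h
    exact hU h rfl
  obtain ⟨ψ, _, hψ⟩ := exists_char_of_notMem _ U.isOpen hx
  refine ⟨ψ, fun h => hψ ?_⟩
  rw [AddChar.map_sub_eq_div, h, div_self']

/-- The descent of a character trivial on `K` to `G ⧸ K`. -/
noncomputable def descend (K : AddSubgroup G) (ψ : AddChar G Circle) (h : ∀ x ∈ K, ψ x = 1) :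
    AddChar (G ⧸ K) Circle :=
  AddChar.toAddMonoidHomEquiv.symm (QuotientAddGroup.lift K ψ.toAddMonoidHom
    (fun x hx => h x hx))

omit [IsTopologicalAddGroup G] [CompactSpace G] [T2Space G] [TotallyDisconnectedSpace G] [TopologicalSpace G] in
lemma descend_mk (K : AddSubgroup G) (ψ : AddChar G Circle) (h : ∀ x ∈ K, ψ x = 1) (x : G) :
    descend K ψ h (QuotientAddGroup.mk x) = ψ x := rfl

/-- Topological generation passes to finite quotients. -/
lemma gens_quot {m : ℕ} (K : AddSubgroup G) (hK : IsOpen (K : Set G)) {a : Fin m → G}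
    (ha : Dense ((AddSubgroup.closure (Set.range a) : AddSubgroup G) : Set G)) :
    (fun j => (QuotientAddGroup.mk (a j) : G ⧸ K)) ∈ gens (G ⧸ K) m := by
  simp only [gens, Set.mem_ofPred_eq]
  rw [eq_top_iff]
  intro y _
  obtain ⟨x, rfl⟩ := QuotientAddGroup.mk_surjective y
  have hO : IsOpen {z : G | z - x ∈ K} := hK.preimage (continuous_id.sub continuous_const)
  obtain ⟨z, hz1, hz2⟩ := ha.inter_open_nonempty _ hO ⟨x, by simp⟩
  simp only [Set.mem_ofPred_eq] at hz1
  have hzx : (QuotientAddGroup.mk x : G ⧸ K) = QuotientAddGroup.mk z := by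
    rw [QuotientAddGroup.eq]
    have : -x + z = z - x := by abel
    rw [this]
    exact hz1
  rw [hzx]
  have h1 : AddSubgroup.map (QuotientAddGroup.mk' K) (AddSubgroup.closure (Set.range a)) ≤
      AddSubgroup.closure (Set.range (fun j => (QuotientAddGroup.mk (a j) : G ⧸ K))) := by
    rw [AddMonoidHom.map_closure, ← Set.range_comp]
    exact le_refl _
  apply h1
  exact ⟨z, hz2, rfl⟩

end

end Pool.Agent.H44.TILF
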