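import Pool.Agent.H44.TILF.Low2

set_option autoImplicit false
set_option linter.unusedSectionVars false
set_option linter.overlappingInstances false

namespace Pool.Agent.H44.TILF

open MeasureTheory Set Submodule
open scoped InnerProductSpace ComplexConjugate

section

variable {G : Type*} [AddCommGroup G] [TopologicalSpace G] [IsTopologicalAddGroup G]
  [CompactSpace G] [T2Space G] [TotallyDisconnectedSpace G]
  [MeasurableSpace G] [BorelSpace G] (μ : Measure G) [μ.IsAddHaarMeasure] [μ.Regular]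
  [IsProbabilityMeasure μ]

/-- Extending a generating tuple. -/
lemma extend_gen {k m : ℕ} (hkm : k ≤ m) {a : Fin k → G}
    (ha : Dense ((AddSubgroup.closure (Set.range a) : AddSubgroup G) : Set G)) :
    ∃ b : Fin m → G, Dense ((AddSubgroup.closure (Set.range b) : AddSubgroup G) : Set G) := by
  classical
  refine ⟨fun j => if h : j.val < k then a ⟨j.val, h⟩ else 0, ?_⟩
  apply ha.mono
  apply AddSubgroup.closure_mono
  rintro _ ⟨i, rfl⟩
  exact ⟨Fin.castLE hkm i, by simp⟩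

lemma fin_of_finset (s : Finset G)
    (hs : Dense ((AddSubgroup.closure (s : Set G) : AddSubgroup G) : Set G)) :
    ∃ (k : ℕ) (a : Fin k → G), Dense ((AddSubgroup.closure (Set.range a) : AddSubgroup G) : Set G) := by
  refine ⟨s.card, fun i => (s.equivFin.symm i : G), ?_⟩
  have : Set.range (fun i => (s.equivFin.symm i : G)) = (s : Set G) := by
    ext x
    constructor
    · rintro ⟨i, rfl⟩
      exact (s.equivFin.symm i).2
    · intro hx
      exact ⟨s.equivFin ⟨x, hx⟩, by simp⟩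
  rw [this]
  exact hs

/-- A translation-invariant linear functional on `L²`. -/
def IsTILF (φ : Lp ℂ 2 μ →ₗ[ℂ] ℂ) : Prop :=
  ∀ (a : G) (f g : Lp ℂ 2 μ), ((g : G → ℂ) =ᵐ[μ] fun x => (f : G → ℂ) (x - a)) → φ g = φ f

lemma isTILF_iff (φ : Lp ℂ 2 μ →ₗ[ℂ] ℂ) : IsTILF μ φ ↔ ∀ a f, φ (tau μ a f) = φ f := by
  constructor
  · intro h a f
    exact h a f _ (coeFn_tau μ a f)
  · intro h a f g hg
    have h1 : g = tau μ a f := by
      apply Lp.ext
      exact hg.trans (coeFn_tau μ a f).symm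
    rw [h1, h]

lemma fc_smul (z : ℂ) (f : Lp ℂ 2 μ) (ψ : Ch G) : fc μ (z • f) ψ = z * fc μ f ψ := by
  rw [fc_eq_inner, fc_eq_inner, inner_smul_right]

lemma fc_chL_self (ψ : Ch G) : fc μ (chL μ ψ) ψ = 1 := by
  rw [fc_eq_inner]
  have h1 := (orthonormal_chL μ).1 ψ
  have h2 := inner_self_eq_norm_sq_to_K (𝕜 := ℂ) (chL μ ψ)
  rw [h2, h1]
  simp

/-- polythetic implies automatic continuity -/
theorem tilf_continuous {m : ℕ} (hall : AllSums μ m) (φ : Lp ℂ 2 μ →ₗ[ℂ] ℂ) (hφ : IsTILF μ φ) :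
    Continuous φ := by
  rw [isTILF_iff] at hφ
  have h1 : ∀ f : Lp ℂ 2 μ, φ f = ⟪chL μ ch1, f⟫_ℂ * φ (chL μ ch1) := by
    intro f
    have h2 : ∫ x, (f - fc μ f ch1 • chL μ (ch1 : Ch G) : Lp ℂ 2 μ) x ∂μ = 0 := by
      rw [← fc_one, fc_sub, fc_smul, fc_chL_self]
      ring
    obtain ⟨a, h, hh⟩ := hall _ h2
    have h3 : φ (f - fc μ f ch1 • chL μ ch1) = 0 := by
      rw [hh, map_sum]
      apply Finset.sum_eq_zero
      intro j _
      rw [map_sub, hφ, sub_self]
    rw [map_sub, map_smul, smul_eq_mul, sub_eq_zero] at h3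
    rw [h3, fc_eq_inner]
  have h2 : (φ : Lp ℂ 2 μ → ℂ) = fun f => ⟪chL μ ch1, f⟫_ℂ * φ (chL μ ch1) := funext h1
  rw [h2]
  fun_prop

lemma coeFn_sum {ι : Type*} (s : Finset ι) (F : ι → Lp ℂ 2 μ) :
    ((∑ i ∈ s, F i : Lp ℂ 2 μ) : G → ℂ) =ᵐ[μ] fun x => ∑ i ∈ s, (F i : G → ℂ) x := by
  classical
  induction s using Finset.induction_on with
  | empty =>
    filter_upwards [Lp.coeFn_zero ℂ 2 μ] with x hx
    simp [hx]
  | insert i s hi ih =>
    rw [Finset.sum_insert hi]
    filter_upwards [Lp.coeFn_add (F i) (∑ i ∈ s, F i), ih] with x e1 e2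
    rw [e1, Pi.add_apply, e2, Finset.sum_insert hi]

/-- the span of all differences -/
noncomputable def DSpan : Submodule ℂ (Lp ℂ 2 μ) :=
  Submodule.span ℂ {f | ∃ (a : G) (h : Lp ℂ 2 μ), f = h - tau μ a h}

lemma DSpan_kill {f : Lp ℂ 2 μ} (hf : f ∈ DSpan μ) :
    ∃ T : Finset G, ∀ ψ : Ch G, (∀ t ∈ T, ψ.1 t = 1) → fc μ f ψ = 0 := by
  classical
  unfold DSpan at hf
  induction hf using Submodule.span_induction with
  | mem f hf =>
    obtain ⟨a, h, rfl⟩ := hf
    refine ⟨{a}, fun ψ hψ => ?_⟩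
    have h1 : ψ.1 a = 1 := hψ a (by simp)
    rw [fc_sub, fc_tau, h1, Circle.coe_one, map_one, one_mul, sub_self]
  | zero =>
    refine ⟨∅, fun ψ _ => ?_⟩
    rw [fc_eq_inner, inner_zero_right]
  | add f g _ _ hf hg =>
    obtain ⟨T, hT⟩ := hf
    obtain ⟨T', hT'⟩ := hg
    refine ⟨T ∪ T', fun ψ hψ => ?_⟩
    rw [fc_add, hT ψ (fun t ht => hψ t (Finset.mem_union_left _ ht)),
      hT' ψ (fun t ht => hψ t (Finset.mem_union_right _ ht)), add_zero]
  | smul z f _ hf =>
    obtain ⟨T, hT⟩ := hf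
    refine ⟨T, fun ψ hψ => ?_⟩
    rw [fc_smul, hT ψ hψ, mul_zero]

/-- A countable set of characters carries a square-summable positive weight. -/
lemma exists_weight (S : Set (Ch G)) (hS : S.Countable) :
    ∃ f : Lp ℂ 2 μ, (∀ ψ ∈ S, fc μ f ψ ≠ 0) ∧ ∀ ψ, ψ ∉ S → fc μ f ψ = 0 := by
  classical
  have : Countable S := hS
  obtain ⟨ε, hε, c, hc, _⟩ := NNReal.exists_pos_sum_of_countable (one_ne_zero) S
  let w : Ch G → ℝ := fun ψ => if h : ψ ∈ S then (ε ⟨ψ, h⟩ : ℝ) else 0
  have hw0 : ∀ ψ, 0 ≤ w ψ := by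
    intro ψ
    simp only [w]
    split_ifs
    · exact NNReal.coe_nonneg _
    · exact le_refl _
  have hws : Summable w := by
    have h1 : Summable (fun s : S => w s.1) := by
      have h2 : (fun s : S => w s.1) = fun s => (ε s : ℝ) := by
        funext s
        simp only [w]
        rw [dif_pos s.2]
      rw [h2]
      exact NNReal.summable_coe.mpr hc.summable
    rw [← Function.Injective.summable_iff (f := w) (g := (Subtype.val : S → Ch G))
      Subtype.val_injective (by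
        intro ψ hψ
        simp only [w]
        rw [dif_neg]
        intro h
        exact hψ ⟨⟨ψ, h⟩, rfl⟩)]
    exact h1
  obtain ⟨f, hf⟩ := exists_fc μ (fun ψ => ((Real.sqrt (w ψ) : ℝ) : ℂ)) (by
    have : (fun ψ : Ch G => ‖((Real.sqrt (w ψ) : ℝ) : ℂ)‖ ^ 2) = w := by
      funext ψ
      rw [Complex.norm_real, Real.norm_eq_abs, sq_abs, Real.sq_sqrt (hw0 ψ)]
    rw [this]
    exact hws)
  refine ⟨f, ?_, ?_⟩
  · intro ψ hψ
    rw [hf]
    have h1 : 0 < w ψ := by
      simp only [w]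
      rw [dif_pos hψ]
      exact_mod_cast hε _
    have h2 := Real.sqrt_pos.mpr h1
    exact_mod_cast h2.ne'
  · intro ψ hψ
    rw [hf]
    simp only [w]
    rw [dif_neg hψ]
    simp

/-- automatic continuity implies polythetic -/
theorem exists_discontinuous
    (hno : ∀ s : Finset G, ¬ Dense ((AddSubgroup.closure (s : Set G) : AddSubgroup G) : Set G)) :
    ∃ φ : Lp ℂ 2 μ →ₗ[ℂ] ℂ, IsTILF μ φ ∧ ¬ Continuous φ := by
  classical
  have hno' : ∀ (m : ℕ) (a : Fin m → G),
      ¬ Dense ((AddSubgroup.closure (Set.range a) : AddSubgroup G) : Set G) := by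
    intro m a h
    apply hno ((Set.finite_range a).toFinset)
    rw [Set.Finite.coe_toFinset]
    exact h
  choose F hF1 hF2 using fun m => finite_kill (hno' m)
  have hcount : (⋃ m, (F m : Set (Ch G))).Countable :=
    Set.countable_iUnion (fun m => (F m).countable_toSet)
  obtain ⟨f, hf1, hf2⟩ := exists_weight μ _ hcount
  have hf0 : fc μ f ch1 = 0 := by
    apply hf2
    intro h
    rw [Set.mem_iUnion] at h
    obtain ⟨m, hm⟩ := h
    obtain ⟨x, hx⟩ := hF1 m _ hm
    exact hx rfl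
  have hfD : f ∉ DSpan μ := by
    intro h
    obtain ⟨T, hT⟩ := DSpan_kill μ h
    obtain ⟨ψ, hψF, hψ⟩ := hF2 T.card (fun i => (T.equivFin.symm i : G))
    apply hf1 ψ (Set.mem_iUnion.mpr ⟨T.card, hψF⟩)
    apply hT
    intro t ht
    have h1 := hψ (T.equivFin ⟨t, ht⟩)
    simpa using h1
  obtain ⟨φ, hφf, hφD⟩ := Submodule.exists_le_ker_of_notMem hfD
  have hφ0 : ∀ (a : G) (h : Lp ℂ 2 μ), φ (h - tau μ a h) = 0 := by
    intro a h
    have : h - tau μ a h ∈ DSpan μ := Submodule.subset_span ⟨a, h, rfl⟩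
    exact LinearMap.mem_ker.mp (hφD this)
  refine ⟨φ, ?_, ?_⟩
  · rw [isTILF_iff]
    intro a h
    have := hφ0 a h
    rw [map_sub, sub_eq_zero] at this
    exact this.symm
  · intro hcont
    apply hφf
    have hch : ∀ ψ : Ch G, ψ ≠ ch1 → φ (chL μ ψ) = 0 := by
      intro ψ hψ
      obtain ⟨x, hx⟩ : ∃ x, ψ.1 x ≠ 1 := by
        by_contra hcon
        push Not at hcon
        exact hψ (ch1_of_trivial hcon)
      have h1 := hφ0 x (chL μ ψ)
      rw [tau_chL, map_sub, map_smul, smul_eq_mul] at h1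
      have h2 : (1 - (((ψ.1 x)⁻¹ : Circle) : ℂ)) * φ (chL μ ψ) = 0 := by
        linear_combination h1
      rcases mul_eq_zero.mp h2 with h | h
      · exfalso
        apply hx
        have h3 : (((ψ.1 x)⁻¹ : Circle) : ℂ) = ((1 : Circle) : ℂ) := by
          rw [Circle.coe_one]
          exact (sub_eq_zero.mp h).symm
        have h4 := Circle.ext h3
        exact inv_eq_one.mp h4
      · exact h
    have hsum := (bas μ).hasSum_repr f
    let Φ : Lp ℂ 2 μ →L[ℂ] ℂ := ⟨φ, hcont⟩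
    have h1 := Φ.hasSum hsum
    have h2 : (fun ψ : Ch G => Φ (((bas μ).repr f : Ch G → ℂ) ψ • (bas μ) ψ)) = fun _ => 0 := by
      funext ψ
      rw [map_smul, bas_apply]
      by_cases h : ψ = ch1
      · have h3 : ((bas μ).repr f : Ch G → ℂ) ψ = 0 := by
          rw [h]
          exact hf0
        rw [h3, zero_smul]
      · have h3 : Φ (chL μ ψ) = 0 := hch ψ h
        rw [h3, smul_zero]
    have h4 : HasSum (fun _ : Ch G => (0 : ℂ)) (Φ f) := by
      rw [← h2]
      exact h1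
    have h5 := h4.unique hasSum_zero
    exact h5

end

end Pool.Agent.H44.TILF
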